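import Mathlib
import Pool.Agent.V7H82.TT.Orb

/-!
# The relations between the translates of an odd function, on good classes and good orbits

There are four alternatives: the function vanishes, or it is a multiple of a sign function at all
translates, or there are no relations, or the relations are the multiples of a sign function.
-/

set_option linter.unusedSectionVars false
set_option linter.unusedVariables false

namespace Pool.Agent.V7H82.HT

open Pool.Agent.TH127.SC Pool.Agent.V7H82.TT MulAction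

/-- An odd linear relation between the translates of the function `W`. -/
def OddRel (G : Type*) {Y : Type*} [Group G] [MulAction G Y] [Fintype Y] (cb : Y → Y) (W c : Y → ℤ) :
    Prop :=
  (∀ y, c (cb y) = -c y) ∧ ∀ g : G, ∑ y, c y * W (g • y) = 0

variable {G Y : Type*} [Group G] [MulAction G Y] {cb : Y → Y} [Fintype Y] [Finite G]
  (hcb : ∀ y, cb (cb y) = y) (hne : ∀ y, cb y ≠ y)
  (hG : ∀ (g : G) (y : Y), g • cb y = cb (g • y))

open Classical in
include hG in
theorem rel_split {W : Y → ℤ} (hW : ∀ y, W (cb y) = -W y) {c : Y → ℤ} (hc : OddRel G cb W c)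
    (y₀ : Y) (g g' : G) :
    ∑ z ∈ Finset.univ.filter (fun z => Link G cb y₀ z), c (g • z) * W (g' • z) = 0 := by
  have := Fintype.ofFinite G
  refine core_split hG hW (c := fun z => c (g • z)) (fun τ => ?_) y₀ g'
  rw [← hc.2 (τ * g⁻¹)]
  refine Fintype.sum_equiv (MulAction.toPerm g) _ _ fun y => ?_
  rw [MulAction.toPerm_apply, ← mul_smul, inv_mul_cancel_right]

include hcb hne hG in
/-- **The alternatives** for a good class. -/
theorem alt_class {y₀ : Y} (hgood : GoodClass G cb y₀) {W : Y → ℤ} (hW : ∀ y, W (cb y) = -W y) :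
    (∀ (g : G) (z : Y), Link G cb y₀ z → W (g • z) = 0) ∨
    (∃ v : Y → ℤ, Semi G cb y₀ v ∧ ∀ (g : G) (x y : Y), Link G cb y₀ x → Link G cb y₀ y →
      W (g • x) * v x = W (g • y) * v y) ∨
    (∀ c, OddRel G cb W c → ∀ z, Link G cb y₀ z → c z = 0) ∨
    ∃ v : Y → ℤ, Semi G cb y₀ v ∧ ∀ c, OddRel G cb W c → ∃ l : ℤ, ∀ z, Link G cb y₀ z →
      c z = l * v z := by
  classical
  obtain ⟨htr, b, hcard, hb⟩ := hgood
  by_cases h0 : ∀ (g : G) (z : Y), Link G cb y₀ z → W (g • z) = 0
  · exact Or.inl h0
  right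
  push Not at h0
  obtain ⟨g₁, z₁, hz₁, hg₁⟩ := h0
  have hcl : ∀ {c}, OddRel G cb W c → ∀ g g' : G,
      ∑ z ∈ Finset.univ.filter (fun z => Link G cb y₀ z), c (g • z) * W (g' • z) = 0 :=
    fun hc g g' => rel_split hG hW hc y₀ g g'
  have hone : Nat.card (Cls G cb y₀) = 2 * 1 →
      ∀ c, OddRel G cb W c → ∀ z, Link G cb y₀ z → c z = 0 := by
    intro h c hc
    have hc0 : c y₀ = 0 := zero_of_one hcb hne hG h hW hc.1 (fun g' => by
      have := hcl hc 1 g'
      simpa only [one_smul] using this) ⟨g₁, z₁, hz₁, hg₁⟩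
    have hB : Finset.univ.filter (fun z => Link G cb y₀ z) = {y₀, cb y₀} := by
      symm
      apply Finset.eq_of_subset_of_card_le
      · intro z hz
        rw [Finset.mem_insert, Finset.mem_singleton] at hz
        refine Finset.mem_filter.2 ⟨Finset.mem_univ _, ?_⟩
        rcases hz with rfl | rfl
        · exact link_refl _
        · exact link_cb hcb hne hG _
      · rw [Finset.card_pair (Ne.symm (hne y₀)), ← Fintype.card_subtype,
          ← Nat.card_eq_fintype_card, h]
    intro z hz
    have hz' : z ∈ Finset.univ.filter (fun z => Link G cb y₀ z) :=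
      Finset.mem_filter.2 ⟨Finset.mem_univ _, hz⟩
    rw [hB, Finset.mem_insert, Finset.mem_singleton] at hz'
    rcases hz' with rfl | rfl
    · exact hc0
    · rw [hc.1, hc0, neg_zero]
  -- a prime number of pairs
  have hprime : b.Prime →
      (∃ v : Y → ℤ, Semi G cb y₀ v ∧ ∀ (g : G) (x y : Y), Link G cb y₀ x → Link G cb y₀ y →
        W (g • x) * v x = W (g • y) * v y) ∨
      (∀ c, OddRel G cb W c → ∀ z, Link G cb y₀ z → c z = 0) ∨
      ∃ v : Y → ℤ, Semi G cb y₀ v ∧ ∀ c, OddRel G cb W c → ∃ l : ℤ, ∀ z, Link G cb y₀ z →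
        c z = l * v z := by
    intro hb
    obtain ⟨h, y, hy, hmove, hper, hdis, hall⟩ : ∃ (h : G) (y : Y), Link G cb y₀ y ∧ h • y ≠ y ∧
        h ^ b • y = y ∧ (∀ k l : ℕ, cb (h ^ k • y) ≠ h ^ l • y) ∧
        ∀ z, Link G cb y z ↔ ∃ k : ℕ, z = h ^ k • y ∨ z = cb (h ^ k • y) := by
      by_cases hb2 : b = 2
      · subst hb2
        exact exists_cycle_two hcb hne hG y₀ htr hcard
      · exact exists_cycle_odd hcb hne hG y₀ htr hb hb2 hcard
    have : Fact b.Prime := ⟨hb⟩
    have hzero : ∀ {c : Y → ℤ}, (∀ y, c (cb y) = -c y) → (∀ g : G, c (g • h • y) = c (g • y)) →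
        c y = 0 → ∀ x, Link G cb y₀ x → c x = 0 := by
      intro c hc hconst hcy x hx
      have hk : ∀ (k : ℕ) (g : G), c (g • h ^ k • y) = c (g • y) := by
        intro k
        induction k with
        | zero => intro g; rw [pow_zero, one_smul]
        | succ k ih =>
          intro g
          rw [pow_succ, mul_smul, ← mul_smul g (h ^ k), hconst, mul_smul, ih]
      have hk1 : ∀ k : ℕ, c (h ^ k • y) = c y := by
        intro k
        have := hk k 1
        rwa [one_smul, one_smul] at this
      obtain ⟨k, hx' | hx'⟩ := (hall x).1 (link_trans (link_symm hy) hx)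
      · rw [hx', hk1, hcy]
      · rw [hx', hc, hk1, hcy, neg_zero]
    by_cases hWc : ∀ g' : G, W (g' • h • y) = W (g' • y)
    · left
      have hWo : ∀ z, (fun z => W (g₁ • z)) (cb z) = -(fun z => W (g₁ • z)) z := by
        intro z
        change W (g₁ • cb z) = -W (g₁ • z)
        rw [hG, hW]
      have hWk : ∀ g : G, (fun z => W (g₁ • z)) (g • h • y) = (fun z => W (g₁ • z)) (g • y) := by
        intro g
        change W (g₁ • g • h • y) = W (g₁ • g • y)
        rw [← mul_smul g₁, ← mul_smul g₁, hWc]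
      have hg₁y : W (g₁ • y) ≠ 0 := by
        intro h0
        exact hg₁ (hzero (c := fun z => W (g₁ • z)) hWo hWk h0 z₁ hz₁)
      obtain ⟨hs, hm⟩ := semi_of_cycle hcb hne hG hy hdis hall (c := fun z => W (g₁ • z)) hWo hWk
        hg₁y
      have hq : ∀ x, Link G cb y₀ x → cycSign h y x * cycSign h y x = 1 := by
        intro x hx
        rcases hs.1 x hx with h | h <;> rw [h] <;> norm_num
      have e : ∀ (g : G) (x : Y), Link G cb y₀ x → W (g • x) * cycSign h y x = W (g • y) := by
        intro g x hx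
        have h5 := hm (g₁⁻¹ * g) x hx
        change W (g₁ • (g₁⁻¹ * g) • x) = W (g₁ • (g₁⁻¹ * g) • y) * _ at h5
        rw [← mul_smul, ← mul_smul, mul_inv_cancel_left] at h5
        rw [h5, mul_assoc, hq x hx, mul_one]
      exact ⟨_, hs, fun g x z hx hz => by rw [e g x hx, e g z hz]⟩
    · right
      push Not at hWc
      have hconst : ∀ c, OddRel G cb W c → ∀ g : G, c (g • h • y) = c (g • y) := by
        intro c hc g
        refine cycle_const hcb hG (r := b) hW hc.1 hmove hper hdis hall hWc g fun g' => ?_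
        rw [← hcl hc g g']
        refine Finset.sum_congr ?_ fun _ _ => rfl
        ext z
        simp only [Finset.mem_filter, Finset.mem_univ, true_and, link_iff_of_link hy]
      by_cases hex : ∃ c, OddRel G cb W c ∧ c y ≠ 0
      · right
        obtain ⟨c₀, hc₀, hy₀⟩ := hex
        obtain ⟨hs, -⟩ := semi_of_cycle hcb hne hG hy hdis hall hc₀.1 (hconst c₀ hc₀) hy₀
        refine ⟨_, hs, fun c hc => ⟨c y, fun z hz => ?_⟩⟩
        by_cases hcy : c y = 0
        · rw [hcy, zero_mul, hzero hc.1 (hconst c hc) hcy z hz]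
        · obtain ⟨-, hm⟩ := semi_of_cycle hcb hne hG hy hdis hall hc.1 (hconst c hc) hcy
          have := hm 1 z hz
          rwa [one_smul, one_smul] at this
      · left
        push Not at hex
        exact fun c hc z hz => hzero hc.1 (hconst c hc) (hex c hc) z hz
  rcases hb with hb | hb | ⟨hpair, hb⟩
  · subst hb
    exact Or.inr (Or.inl (hone hcard))
  · exact hprime hb
  · by_cases hb3 : 3 ≤ b
    swap
    · have hb12 : b = 0 ∨ b = 1 ∨ b = 2 := by omega
      rcases hb12 with rfl | rfl | rfl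
      · exfalso
        rw [mul_zero, Nat.card_eq_fintype_card, Fintype.card_eq_zero_iff] at hcard
        exact hcard.elim ⟨y₀, link_refl _⟩
      · exact Or.inr (Or.inl (hone hcard))
      · exact hprime Nat.prime_two
    let B : Finset Y := Finset.univ.filter (fun z => Link G cb y₀ z)
    have hB : ∀ z, z ∈ B ↔ Link G cb y₀ z := fun z => by simp [B]
    have hBc : B.card = 2 * b := by
      rw [← Fintype.card_subtype, ← Nat.card_eq_fintype_card]
      exact hcard
    obtain ⟨y₁, hy₁B, hy₁⟩ : ∃ y₁ ∈ B, y₁ ∉ ({y₀, cb y₀} : Finset Y) := by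
      by_contra hcon
      push Not at hcon
      have h1 : B.card ≤ ({y₀, cb y₀} : Finset Y).card := Finset.card_le_card hcon
      have h2 : ({y₀, cb y₀} : Finset Y).card ≤ 2 := Finset.card_le_two
      omega
    obtain ⟨y₂, hy₂B, hy₂⟩ : ∃ y₂ ∈ B, y₂ ∉ ({y₀, cb y₀, y₁, cb y₁} : Finset Y) := by
      by_contra hcon
      push Not at hcon
      have h1 : B.card ≤ ({y₀, cb y₀, y₁, cb y₁} : Finset Y).card := Finset.card_le_card hcon
      have h2 : ({y₀, cb y₀, y₁, cb y₁} : Finset Y).card ≤ 4 := Finset.card_le_four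
      omega
    rw [hB] at hy₁B hy₂B
    simp only [Finset.mem_insert, Finset.mem_singleton, not_or] at hy₁ hy₂
    obtain ⟨n1, n2⟩ := hy₁
    obtain ⟨n3, n4, n5, n6⟩ := hy₂
    have h3 : ∃ a b d : Y, Link G cb y₀ a ∧ Link G cb y₀ b ∧ Link G cb y₀ d ∧ b ≠ a ∧ b ≠ cb a ∧
        d ≠ a ∧ d ≠ cb a ∧ d ≠ b ∧ d ≠ cb b :=
      ⟨y₀, y₁, y₂, link_refl _, hy₁B, hy₂B, n1, n2, n3, n4, n5, n6⟩
    -- two semi-invariant sign functions agree up to the sign
    have huniq : ∀ v v' : Y → ℤ, Semi G cb y₀ v → Semi G cb y₀ v' →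
        ∃ s : ℤ, (s = 1 ∨ s = -1) ∧ ∀ z, Link G cb y₀ z → v z = s * v' z := by
      intro v v' hv hv'
      have key : ∀ z, Link G cb y₀ z → v z = (v y₀ * v' y₀) * v' z := by
        intro z hz
        have hz0 := hv.1 z hz
        have hz1 := hv'.1 z hz
        have h00 := hv.1 y₀ (link_refl _)
        have h01 := hv'.1 y₀ (link_refl _)
        by_cases h : v z = v y₀
        · have h6 := semi_unique hcb hne hG hpair hv hv' h3 hz (link_refl _) h
          rw [h, h6]
          rcases h01 with h | h <;> rw [h] <;> ring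
        · have hcz : Link G cb y₀ (cb z) := link_trans hz (link_cb hcb hne hG _)
          have h7 : v (cb z) = v y₀ := by
            rw [hv.2.1 z hz]
            rcases hz0 with h1 | h1 <;> rcases h00 with h2 | h2 <;> omega
          have h6 := semi_unique hcb hne hG hpair hv hv' h3 hcz (link_refl _) h7
          rw [hv'.2.1 z hz] at h6
          rw [hv.2.1 z hz] at h7
          rw [← h7, ← h6]
          have : v' z * v' z = 1 := by rcases hz1 with h | h <;> rw [h] <;> norm_num
          calc v z = v z * (v' z * v' z) := by rw [this, mul_one]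
            _ = _ := by ring
      refine ⟨v y₀ * v' y₀, ?_, key⟩
      rcases hv.1 y₀ (link_refl _) with h | h <;> rcases hv'.1 y₀ (link_refl _) with h' | h' <;>
        rw [h, h'] <;> norm_num
    by_cases hv0 : ∃ v, Semi G cb y₀ v
    · obtain ⟨v₀, hv₀⟩ := hv0
      by_cases hprop : ∀ (g : G) (x y : Y), Link G cb y₀ x → Link G cb y₀ y →
          W (g • x) * v₀ x = W (g • y) * v₀ y
      · exact Or.inl ⟨v₀, hv₀, hprop⟩
      · right; right
        push Not at hprop
        obtain ⟨g', x, z, hx, hz, hxz⟩ := hprop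
        refine ⟨v₀, hv₀, fun c hc => ?_⟩
        have hne0 : ∃ z, Link G cb y₀ z ∧ W (g' • z) ≠ 0 := by
          by_contra hcon
          push Not at hcon
          apply hxz
          rw [hcon x hx, hcon z hz, zero_mul, zero_mul]
        rcases pair_alternatives hcb hne hG htr (by omega) hcard hb hpair hW hc.1 1 g'
          (hcl hc 1) hne0 with h4 | ⟨v, hv, h4⟩ | ⟨v, l, hv, h4⟩
        · refine ⟨0, fun z hz => ?_⟩
          have := h4 z hz
          rw [one_smul] at this
          rw [this, zero_mul]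
        · exfalso
          apply hxz
          obtain ⟨s, hs, hsv⟩ := huniq v v₀ hv hv₀
          have h5 := h4 x z hx hz
          rw [hsv x hx, hsv z hz] at h5
          rcases hs with rfl | rfl
          · linarith
          · linarith
        · obtain ⟨s, hs, hsv⟩ := huniq v v₀ hv hv₀
          refine ⟨l * s, fun z hz => ?_⟩
          have := h4 z hz
          rw [one_smul, hsv z hz] at this
          rw [this]
          ring
    · right; left
      intro c hc
      rcases pair_alternatives hcb hne hG htr (by omega) hcard hb hpair hW hc.1 1 g₁ (hcl hc 1)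
        ⟨z₁, hz₁, hg₁⟩ with h4 | ⟨v, hv, h4⟩ | ⟨v, l, hv, h4⟩
      · intro z hz
        have := h4 z hz
        rwa [one_smul] at this
      · exact absurd ⟨v, hv⟩ hv0
      · exact absurd ⟨v, hv⟩ hv0

open Classical in
include hcb hne hG in
/-- **The alternatives** for a good orbit. -/
theorem alt_orb (hκ : ∀ y : Y, cb y ∈ orbit G y)
    (hind : ∀ y z : Y, z ∉ orbit G y → Flip G cb y z) {y₀ : Y} (hgood : GoodOrbit G cb y₀)
    {W : Y → ℤ} (hW : ∀ y, W (cb y) = -W y) :
    (∀ c, OddRel G cb W c → ∀ g : G,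
      ∑ z ∈ Finset.univ.filter (fun z => z ∈ orbit G y₀), c z * W (g • z) = 0) ∧
    ((∀ z ∈ orbit G y₀, W z = 0) ∨
    (∃ v : Y → ℤ, OrbSign G cb y₀ v ∧ ∀ (g : G), ∀ x ∈ orbit G y₀, ∀ y ∈ orbit G y₀,
      W (g • x) * v x = W (g • y) * v y) ∨
    (∀ c, OddRel G cb W c → ∀ z ∈ orbit G y₀, c z = 0) ∨
    ∃ v : Y → ℤ, OrbSign G cb y₀ v ∧ ∀ c, OddRel G cb W c → ∃ l : ℤ, ∀ z ∈ orbit G y₀,
      c z = l * v z) := by
  have horb' : ∀ a b, Link G cb a b → b ∈ orbit G a := by
    intro a b h
    unfold Link at h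
    induction h with
    | rel a b hab =>
      by_contra hcon
      exact hab (hind _ _ hcon)
    | refl a => exact mem_orbit_self _
    | symm a b _ ih => exact mem_orbit_symm.1 ih
    | trans a b c _ _ ih1 ih2 =>
      rw [← orbit_eq_iff] at ih1 ih2 ⊢
      rw [ih2, ih1]
  have horb := horb' y₀
  have htr : ∀ z, Link G cb y₀ z → ∃ g : G, g • y₀ = z := fun z hz => horb z hz
  have hsmul : ∀ (g : G) (x : Y), x ∈ orbit G y₀ → g • x ∈ orbit G y₀ := by
    rintro g _ ⟨h, rfl⟩
    exact ⟨g * h, mul_smul g h y₀⟩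
  have hcborb : ∀ x, x ∈ orbit G y₀ → cb x ∈ orbit G y₀ := by
    rintro _ ⟨h, rfl⟩
    change cb (h • y₀) ∈ orbit G y₀
    rw [← hG]
    exact hsmul h _ (hκ y₀)
  have hprim : OrbPrim G cb y₀ := prim_of_good (fun x _ => hcb x) (fun x _ => hne x) hgood
  have halt : (∀ z, Link G cb y₀ z → z = y₀ ∨ z = cb y₀) ∨ ∀ z ∈ orbit G y₀, Link G cb y₀ z := by
    rcases hprim {z | Link G cb y₀ z} (fun z hz => horb z hz) (link_refl _)
      (fun x hx => link_trans hx (link_cb hcb hne hG x))
      (by
        rintro g ⟨x, hx, hgx⟩ y hy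
        exact link_trans hgx (link_smul hG g (link_trans (link_symm hx) hy))) with h | h
    · exact Or.inl h
    · right
      intro z hz
      rw [← h] at hz
      exact hz
  obtain ⟨n, hn, hgood⟩ := hgood
  have halt : (∀ z, Link G cb y₀ z → z = y₀ ∨ z = cb y₀) ∨
      ((∀ z ∈ orbit G y₀, Link G cb y₀ z) ∧ (n = 1 ∨ n.Prime ∨
        (OrbPair G cb y₀ ∧ (Odd n ∨ (n - 1).Prime ∨ OrbTriple G cb y₀)))) := by
    rcases hgood with h | h | h | ⟨h, h'⟩
    · rcases halt with halt | halt
      · exact Or.inl halt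
      · exact Or.inr ⟨halt, Or.inl h⟩
    · rcases halt with halt | halt
      · exact Or.inl halt
      · exact Or.inr ⟨halt, Or.inr (Or.inl h)⟩
    · rcases halt with halt | halt
      · exact Or.inl halt
      · exact Or.inr ⟨halt, Or.inr (Or.inr h)⟩
    · left
      intro z hz
      by_contra hcon
      push Not at hcon
      obtain ⟨x, y, hx, hxy, h1, h2⟩ := exists_not_flip hcb hne hG hz hcon.1 hcon.2
      have hy : Link G cb y₀ y := link_trans hx (Relation.EqvGen.rel _ _ hxy)
      apply hxy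
      obtain ⟨g, hg | hg⟩ := flip_of_mix (fun x hx => hcborb x hx) (fun x _ => hcb x)
        (fun x _ => hne x) (fun g y _ => hG g y) h h' (horb x hx) (horb y hy) h1 h2
      · exact ⟨g, Or.inl hg⟩
      · exact ⟨g, Or.inr (Or.inl hg)⟩
  rcases halt with halt | ⟨halt, hgood⟩
  · -- one pair
    have hB : (Finset.univ.filter (fun z => Link G cb y₀ z)) = {y₀, cb y₀} := by
      ext z
      simp only [Finset.mem_filter, Finset.mem_univ, true_and, Finset.mem_insert,
        Finset.mem_singleton]
      refine ⟨halt z, ?_⟩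
      rintro (rfl | rfl)
      · exact link_refl _
      · exact link_cb hcb hne hG _
    have hcard : Nat.card (Cls G cb y₀) = 2 * 1 := by
      rw [Nat.card_eq_fintype_card, Fintype.card_subtype, hB, Finset.card_pair (hne y₀).symm]
    by_cases h0 : ∀ z ∈ orbit G y₀, W z = 0
    · refine ⟨fun c _ g => Finset.sum_eq_zero fun z hz => ?_, Or.inl h0⟩
      rw [h0 _ (hsmul g z (Finset.mem_filter.1 hz).2), mul_zero]
    · push Not at h0
      obtain ⟨_, ⟨g₀, rfl⟩, hW₀⟩ := h0
      have hc0 : ∀ c, OddRel G cb W c → c y₀ = 0 := by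
        intro c hc
        refine zero_of_one hcb hne hG hcard hW hc.1 (fun g' => ?_)
          ⟨g₀, y₀, link_refl _, hW₀⟩
        have := rel_split hG hW hc y₀ 1 g'
        simpa only [one_smul] using this
      have hall : ∀ c, OddRel G cb W c → ∀ z ∈ orbit G y₀, c z = 0 := by
        rintro c hc _ ⟨g, rfl⟩
        refine hc0 (fun z => c (g • z)) ⟨fun z => ?_, fun τ => ?_⟩
        · change c (g • cb z) = -c (g • z)
          rw [hG, hc.1]
        · rw [← hc.2 (τ * g⁻¹)]
          refine Fintype.sum_equiv (MulAction.toPerm g) _ _ fun y => ?_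
          rw [MulAction.toPerm_apply, ← mul_smul, inv_mul_cancel_right]
      refine ⟨fun c hc g => Finset.sum_eq_zero fun z hz => ?_, Or.inr (Or.inr (Or.inl hall))⟩
      rw [hall c hc z (Finset.mem_filter.1 hz).2, zero_mul]
  · have hiff : ∀ z, Link G cb y₀ z ↔ z ∈ orbit G y₀ := fun z => ⟨horb z, halt z⟩
    have hset : {z | Link G cb y₀ z} = orbit G y₀ := Set.ext hiff
    have hcard : Nat.card (Cls G cb y₀) = (orbit G y₀).ncard := by
      rw [← hset]
      rfl
    have hfil : (Finset.univ.filter (fun z => z ∈ orbit G y₀)) =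
        Finset.univ.filter (fun z => Link G cb y₀ z) := by
      ext z
      simp only [Finset.mem_filter, Finset.mem_univ, true_and, hiff]
    have hsgn : ∀ v, Semi G cb y₀ v → OrbSign G cb y₀ v := by
      intro v hv
      exact ⟨fun x hx => hv.1 x ((hiff _).2 hx), fun x hx => hv.2.1 x ((hiff _).2 hx),
          fun g x hx y hy => hv.2.2 g x y ((hiff _).2 hx) ((hiff _).2 hy)
            ((hiff _).2 (hsmul g x hx))⟩
    refine ⟨fun c hc g => ?_, ?_⟩
    · rw [hfil]
      have := rel_split hG hW hc y₀ 1 g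
      simpa only [one_smul] using this
    have hgc : GoodClass G cb y₀ := by
      refine ⟨htr, n, by rw [← hn]; exact hcard, ?_⟩
      rcases hgood with h | h | ⟨h, h'⟩
      · exact Or.inl h
      · exact Or.inr (Or.inl h)
      · refine Or.inr (Or.inr ⟨?_, ?_⟩)
        · intro x y x' y' h1 h2 h3 h4
          exact h x y x' y' ((hiff _).1 h1) ((hiff _).1 h2) ((hiff _).1 h3) ((hiff _).1 h4)
        · rcases h' with h' | h' | h'
          · exact Or.inl h'
          · exact Or.inr (Or.inl h')
          · refine Or.inr (Or.inr ?_)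
            intro x y h1 h2
            exact h' x y (fun i => (hiff _).1 (h1 i)) (fun i => (hiff _).1 (h2 i))
    rcases alt_class hcb hne hG hgc hW with h | ⟨v, hv, h⟩ | h | ⟨v, hv, h⟩
    · left
      intro z hz
      have := h 1 z ((hiff z).2 hz)
      rwa [one_smul] at this
    · exact Or.inr (Or.inl ⟨v, hsgn v hv, fun g x hx y hy =>
        h g x y ((hiff _).2 hx) ((hiff _).2 hy)⟩)
    · exact Or.inr (Or.inr (Or.inl fun c hc z hz => h c hc z ((hiff _).2 hz)))
    · refine Or.inr (Or.inr (Or.inr ⟨v, hsgn v hv, fun c hc => ?_⟩))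
      obtain ⟨l, hl⟩ := h c hc
      exact ⟨l, fun z hz => hl z ((hiff _).2 hz)⟩

end Pool.Agent.V7H82.HT
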