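import Mathlib
import Pool.Agent.V7H82.HT.Alt

/-!
# The alternatives for an arbitrary group which acts on a finite set
-/

set_option linter.unusedSectionVars false
set_option linter.unusedVariables false

namespace Pool.Agent.V7H82.HT

open Pool.Agent.TH127.SC Pool.Agent.V7H82.TT MulAction

variable {Γ Y : Type*} [Group Γ] [MulAction Γ Y] {cb : Y → Y} [Fintype Y]
  (hcb : ∀ y, cb (cb y) = y) (hne : ∀ y, cb y ≠ y)
  (hG : ∀ (g : Γ) (y : Y), g • cb y = cb (g • y))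

/-- The permutations given by the group. -/
abbrev Pm (Γ Y : Type*) [Group Γ] [MulAction Γ Y] : Subgroup (Equiv.Perm Y) :=
  (MulAction.toPermHom Γ Y).range

theorem pm_of (σ : Γ) : ∃ g : Pm Γ Y, ∀ y : Y, g • y = σ • y := ⟨⟨_, σ, rfl⟩, fun y => rfl⟩

theorem of_pm (g : Pm Γ Y) : ∃ σ : Γ, ∀ y : Y, g • y = σ • y := by
  obtain ⟨g, σ, rfl⟩ := g
  exact ⟨σ, fun y => rfl⟩

theorem orbit_pm (y : Y) : orbit (Pm Γ Y) y = orbit Γ y := by
  ext z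
  constructor
  · rintro ⟨g, rfl⟩
    obtain ⟨σ, hσ⟩ := of_pm g
    exact ⟨σ, (hσ y).symm⟩
  · rintro ⟨σ, rfl⟩
    obtain ⟨g, hg⟩ := pm_of (Y := Y) σ
    exact ⟨g, hg y⟩

theorem goodOrbit_pm {y₀ : Y} (h : GoodOrbit Γ cb y₀) : GoodOrbit (Pm Γ Y) cb y₀ := by
  obtain ⟨n, hn, h⟩ := h
  refine ⟨n, by rw [orbit_pm, hn], ?_⟩
  rcases h with h | h | ⟨h, h'⟩ | ⟨h, h'⟩
  · exact Or.inl h
  · exact Or.inr (Or.inl h)
  · refine Or.inr (Or.inr (Or.inl ⟨?_, ?_⟩))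
    · intro x y x' y' hx hy hx' hy' h1 h2 h3 h4
      rw [orbit_pm] at hx hy hx' hy'
      obtain ⟨σ, hσ⟩ := h x y x' y' hx hy hx' hy' h1 h2 h3 h4
      obtain ⟨g, hg⟩ := pm_of (Y := Y) σ
      refine ⟨g, ?_⟩
      rw [hg, hg]
      exact hσ
    · rcases h' with h' | h' | h'
      · exact Or.inl h'
      · exact Or.inr (Or.inl h')
      · refine Or.inr (Or.inr ?_)
        intro x y hx hy hx' hy'
        obtain ⟨σ, π, hσ⟩ := h' x y (fun i => by rw [← orbit_pm]; exact hx i)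
          (fun i => by rw [← orbit_pm]; exact hy i) hx' hy'
        obtain ⟨g, hg⟩ := pm_of (Y := Y) σ
        refine ⟨g, π, fun i => ?_⟩
        rw [hg]
        exact hσ i
  · refine Or.inr (Or.inr (Or.inr ⟨?_, ?_⟩))
    · intro B hB hy hBc hblock
      rw [orbit_pm] at hB ⊢
      refine h B hB hy hBc fun σ hσ x hx => ?_
      obtain ⟨g, hg⟩ := pm_of (Y := Y) σ
      rw [← hg]
      refine hblock g ?_ x hx
      obtain ⟨z, hz, hz'⟩ := hσ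
      exact ⟨z, hz, by rw [hg]; exact hz'⟩
    · obtain ⟨k, hk, ⟨a, ha, hka⟩, b, hb, hkb⟩ := h'
      obtain ⟨g, hg⟩ := pm_of (Y := Y) k
      refine ⟨g, fun x hx => ?_, ⟨a, by rw [orbit_pm]; exact ha, by rw [hg]; exact hka⟩, b, by
        rw [orbit_pm]; exact hb, by rw [hg]; exact hkb⟩
      rw [hg]
      rw [orbit_pm] at hx
      exact hk x hx

theorem oddRel_pm {W c : Y → ℤ} : OddRel (Pm Γ Y) cb W c ↔ OddRel Γ cb W c := by
  refine and_congr Iff.rfl ⟨fun h σ => ?_, fun h g => ?_⟩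
  · obtain ⟨g, hg⟩ := pm_of (Y := Y) σ
    rw [← h g]
    exact Finset.sum_congr rfl fun y _ => by rw [hg]
  · obtain ⟨σ, hσ⟩ := of_pm g
    rw [← h σ]
    exact Finset.sum_congr rfl fun y _ => by rw [hσ]

theorem orbSign_pm {y₀ : Y} {v : Y → ℤ} : OrbSign (Pm Γ Y) cb y₀ v ↔ OrbSign Γ cb y₀ v := by
  unfold OrbSign
  rw [orbit_pm]
  refine and_congr Iff.rfl (and_congr Iff.rfl ⟨fun h σ x hx y hy => ?_, fun h g x hx y hy => ?_⟩)
  · obtain ⟨g, hg⟩ := pm_of (Y := Y) σ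
    rw [← hg, ← hg]
    exact h g x hx y hy
  · obtain ⟨σ, hσ⟩ := of_pm g
    rw [hσ, hσ]
    exact h σ x hx y hy

open Classical in
include hcb hne hG in
/-- **The alternatives** for a good orbit of an arbitrary group. -/
theorem alt_orb_inf (hκ : ∀ y : Y, cb y ∈ orbit Γ y)
    (hind : ∀ y z : Y, z ∉ orbit Γ y → Flip Γ cb y z) {y₀ : Y} (hgood : GoodOrbit Γ cb y₀)
    {W : Y → ℤ} (hW : ∀ y, W (cb y) = -W y) :
    (∀ c, OddRel Γ cb W c → ∀ g : Γ,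
      ∑ z ∈ Finset.univ.filter (fun z => z ∈ orbit Γ y₀), c z * W (g • z) = 0) ∧
    ((∀ z ∈ orbit Γ y₀, W z = 0) ∨
    (∃ v : Y → ℤ, OrbSign Γ cb y₀ v ∧ ∀ (g : Γ), ∀ x ∈ orbit Γ y₀, ∀ y ∈ orbit Γ y₀,
      W (g • x) * v x = W (g • y) * v y) ∨
    (∀ c, OddRel Γ cb W c → ∀ z ∈ orbit Γ y₀, c z = 0) ∨
    ∃ v : Y → ℤ, OrbSign Γ cb y₀ v ∧ ∀ c, OddRel Γ cb W c → ∃ l : ℤ, ∀ z ∈ orbit Γ y₀,
      c z = l * v z) := by
  have h := alt_orb (G := Pm Γ Y) (cb := cb) hcb hne (fun g y => by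
      obtain ⟨σ, hσ⟩ := of_pm g
      rw [hσ, hσ, hG]) (fun y => by rw [orbit_pm]; exact hκ y) (fun y z hz => by
      rw [orbit_pm] at hz
      obtain ⟨σ, hσ⟩ := hind y z hz
      obtain ⟨g, hg⟩ := pm_of (Y := Y) σ
      refine ⟨g, ?_⟩
      rw [hg, hg]
      exact hσ) (goodOrbit_pm hgood) hW
  simp only [oddRel_pm, orbSign_pm, orbit_pm] at h
  obtain ⟨h1, h2⟩ := h
  refine ⟨fun c hc σ => ?_, ?_⟩
  · obtain ⟨g, hg⟩ := pm_of (Y := Y) σ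
    have h3 := h1 c hc g
    simp only [hg] at h3
    rw [← h3]
  · rcases h2 with h2 | ⟨v, hv, h2⟩ | h2 | h2
    · exact Or.inl h2
    · refine Or.inr (Or.inl ⟨v, hv, fun σ x hx y hy => ?_⟩)
      obtain ⟨g, hg⟩ := pm_of (Y := Y) σ
      rw [← hg, ← hg]
      exact h2 g x hx y hy
    · exact Or.inr (Or.inr (Or.inl h2))
    · exact Or.inr (Or.inr (Or.inr h2))

end Pool.Agent.V7H82.HT
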