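import Mathlib
import Pool.Agent.V7H82.HT.Inf

/-!
# Generation of the relations by relations between two elements and by sign functions
-/

set_option linter.unusedSectionVars false
set_option linter.unusedVariables false

namespace Pool.Agent.V7H82.HT

open Pool.Agent.TH127.SC Pool.Agent.V7H82.TT MulAction

/-- A linear relation between the translates of the function `W`. -/
def Rel (Γ : Type*) {Y : Type*} [Group Γ] [MulAction Γ Y] [Fintype Y] (W d : Y → ℤ) : Prop :=
  ∀ σ : Γ, ∑ y, d y * W (σ • y) = 0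

/-- The relations between at most two elements. -/
def Elm (Γ : Type*) {Y : Type*} [Group Γ] [MulAction Γ Y] [Fintype Y] (W : Y → ℤ) : Set (Y → ℤ) :=
  {n | Rel Γ W n ∧ ∃ m : Y → ℕ, (∀ y, n y = m y) ∧ ∑ y, m y ≤ 2}

open Classical in
/-- The elements of the orbit of `y₀` at which `v` is one. -/
noncomputable def NW (Γ : Type*) {Y : Type*} [Group Γ] [MulAction Γ Y] (y₀ : Y) (v : Y → ℤ) :
    Y → ℤ := fun y => if y ∈ orbit Γ y₀ ∧ v y = 1 then 1 else 0

open Classical in
/-- The restriction of `d` to the orbit of `y₀`. -/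
noncomputable def restr (Γ : Type*) {Y : Type*} [Group Γ] [MulAction Γ Y] (y₀ : Y) (d : Y → ℤ) :
    Y → ℤ := fun y => if y ∈ orbit Γ y₀ then d y else 0

open Classical in
/-- One element. -/
noncomputable def dl {Y : Type*} (x : Y) : Y → ℤ := fun y => if y = x then 1 else 0

variable {Γ Y : Type*} [Group Γ] [MulAction Γ Y] {cb : Y → Y} [Fintype Y] {W : Y → ℤ}

open Classical in
theorem sum_dl (x : Y) (f : Y → ℤ) : ∑ y, dl x y * f y = f x := by
  simp [dl]

theorem rel_add {d e : Y → ℤ} (h : Rel Γ W d) (h' : Rel Γ W e) : Rel Γ W (d + e) := by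
  intro σ
  simp only [Pi.add_apply, add_mul, Finset.sum_add_distrib, h σ, h' σ, add_zero]

theorem dl_mem {x : Y} (h : ∀ σ : Γ, W (σ • x) = 0) : dl x ∈ Elm Γ W := by
  classical
  refine ⟨fun σ => by rw [sum_dl x (fun y => W (σ • y)), h σ],
    fun y => if y = x then 1 else 0, fun y => ?_, ?_⟩
  · simp [dl]
  · simp

theorem dl_add_mem {x x' : Y} (h : ∀ σ : Γ, W (σ • x) + W (σ • x') = 0) :
    dl x + dl x' ∈ Elm Γ W := by
  classical
  refine ⟨fun σ => ?_, fun y => (if y = x then 1 else 0) + if y = x' then 1 else 0, fun y => ?_, ?_⟩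
  · simp only [Pi.add_apply, add_mul, Finset.sum_add_distrib]
    rw [sum_dl x (fun y => W (σ • y)), sum_dl x' (fun y => W (σ • y)), h σ]
  · simp [dl]
  · simp [Finset.sum_add_distrib]

variable (hcb : ∀ y, cb (cb y) = y) (hne : ∀ y, cb y ≠ y)
  (hG : ∀ (g : Γ) (y : Y), g • cb y = cb (g • y)) (hW : ∀ y, W (cb y) = -W y)

include hcb hne hG hW in
/-- Symmetric functions. -/
theorem sym_mem {f : Y → ℤ} (hf : ∀ y, f (cb y) = f y) : f ∈ AddSubgroup.closure (Elm Γ W) := by
  classical
  let e := Fintype.equivFin Y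
  have h1 : f = ∑ y, (if e y < e (cb y) then f y else 0) • (dl y + dl (cb y)) := by
    funext x
    rw [Finset.sum_apply]
    have h2 : ∀ y, ((if e y < e (cb y) then f y else 0) • (dl y + dl (cb y))) x =
        (if y = x then (if e y < e (cb y) then f y else 0) else 0) +
          if y = cb x then (if e y < e (cb y) then f y else 0) else 0 := by
      intro y
      have h3 : x = cb y ↔ y = cb x := by
        constructor
        · rintro rfl; rw [hcb]
        · rintro rfl; rw [hcb]
      have h4 : x = y ↔ y = x := eq_comm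
      simp only [Pi.smul_apply, Pi.add_apply, dl, smul_eq_mul, h3, h4]
      split_ifs <;> ring
    rw [Finset.sum_congr rfl fun y _ => h2 y, Finset.sum_add_distrib,
      Finset.sum_ite_eq' Finset.univ x, Finset.sum_ite_eq' Finset.univ (cb x),
      if_pos (Finset.mem_univ _), if_pos (Finset.mem_univ _), hcb, hf]
    rcases lt_trichotomy (e x) (e (cb x)) with h | h | h
    · rw [if_pos h, if_neg (not_lt.2 h.le), add_zero]
    · exact absurd (e.injective h).symm (hne x)
    · rw [if_neg (not_lt.2 h.le), if_pos h, zero_add]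
  rw [h1]
  refine AddSubgroup.sum_mem _ fun y _ => AddSubgroup.zsmul_mem _
    (AddSubgroup.subset_closure (dl_add_mem fun σ => ?_)) _
  rw [hG, hW]
  ring

include hcb hG hW in
theorem oddRel_of_rel {d : Y → ℤ} (hd : Rel Γ W d) : OddRel Γ cb W (fun y => d y - d (cb y)) := by
  refine ⟨fun y => by simp only [hcb]; ring, fun σ => ?_⟩
  have h1 : ∑ y, d (cb y) * W (σ • y) = -∑ y, d y * W (σ • y) := by
    rw [← Finset.sum_neg_distrib]
    refine Fintype.sum_equiv (Function.Involutive.toPerm cb hcb) _ _ fun y => ?_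
    change d (cb y) * W (σ • y) = -(d (cb y) * W (σ • cb y))
    rw [hG, hW]
    ring
  simp only [sub_mul, Finset.sum_sub_distrib]
  rw [h1, hd σ]
  ring

include hcb hG hW in
theorem rel_sym {f : Y → ℤ} (hf : ∀ y, f (cb y) = f y) : Rel Γ W f := by
  intro σ
  have h1 : ∑ y, f y * W (σ • y) = -∑ y, f y * W (σ • y) := by
    conv_lhs => rw [← Equiv.sum_comp (Function.Involutive.toPerm cb hcb)]
    rw [← Finset.sum_neg_distrib]
    refine Finset.sum_congr rfl fun y _ => ?_
    change f (cb y) * W (σ • cb y) = _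
    rw [hG, hW, hf]
    ring
  omega

include hcb hne hG hW in
/-- The restriction of the relations to a good orbit. -/
theorem gen_orb (hκ : ∀ y : Y, cb y ∈ orbit Γ y)
    (hind : ∀ y z : Y, z ∉ orbit Γ y → Flip Γ cb y z) {y₀ : Y} (hgood : GoodOrbit Γ cb y₀) :
    (∀ d, Rel Γ W d → restr Γ y₀ d ∈ AddSubgroup.closure (Elm Γ W)) ∨
    ∃ v : Y → ℤ, OrbSign Γ cb y₀ v ∧ Rel Γ W (NW Γ y₀ v) ∧
      ∀ d, Rel Γ W d → restr Γ y₀ d ∈ AddSubgroup.closure (Elm Γ W ∪ {NW Γ y₀ v}) := by
  classical
  obtain ⟨hsplit, halt⟩ := alt_orb_inf hcb hne hG hκ hind hgood hW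
  have hsmul : ∀ (g : Γ) (x : Y), x ∈ orbit Γ y₀ → g • x ∈ orbit Γ y₀ := by
    rintro g _ ⟨h, rfl⟩
    exact ⟨g * h, mul_smul g h y₀⟩
  have hcbo : ∀ x, x ∈ orbit Γ y₀ → cb x ∈ orbit Γ y₀ := by
    rintro _ ⟨h, rfl⟩
    change cb (h • y₀) ∈ orbit Γ y₀
    rw [← hG]
    exact hsmul h _ (hκ y₀)
  have hcboi : ∀ x, cb x ∈ orbit Γ y₀ ↔ x ∈ orbit Γ y₀ := fun x =>
    ⟨fun h => by have := hcbo _ h; rwa [hcb] at this, hcbo x⟩
  -- the sum over the orbit
  have hO : ∀ d, Rel Γ W d → ∀ σ : Γ,
      ∑ z ∈ Finset.univ.filter (fun z => z ∈ orbit Γ y₀), d z * W (σ • z) = 0 := by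
    intro d hd σ
    have h1 := hsplit _ (oddRel_of_rel hcb hG hW hd) σ
    have h2 : ∑ z ∈ Finset.univ.filter (fun z => z ∈ orbit Γ y₀), d (cb z) * W (σ • z) =
        -∑ z ∈ Finset.univ.filter (fun z => z ∈ orbit Γ y₀), d z * W (σ • z) := by
      rw [← Finset.sum_neg_distrib]
      refine Finset.sum_bij' (fun z _ => cb z) (fun z _ => cb z) ?_ ?_ ?_ ?_ ?_
      · intro z hz
        exact Finset.mem_filter.2 ⟨Finset.mem_univ _, hcbo z (Finset.mem_filter.1 hz).2⟩
      · intro z hz
        exact Finset.mem_filter.2 ⟨Finset.mem_univ _, hcbo z (Finset.mem_filter.1 hz).2⟩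
      · intro z _
        exact hcb z
      · intro z _
        exact hcb z
      · intro z _
        rw [hG, hW]
        ring
    simp only [sub_mul, Finset.sum_sub_distrib] at h1
    rw [h2] at h1
    omega
  have hrestr : ∀ d, Rel Γ W d → Rel Γ W (restr Γ y₀ d) := by
    intro d hd σ
    rw [← hO d hd σ, Finset.sum_filter]
    refine Finset.sum_congr rfl fun z _ => ?_
    unfold restr
    split_ifs
    · rfl
    · rw [zero_mul]
  -- the first case
  have hZ : (∀ z ∈ orbit Γ y₀, W z = 0) →
      ∀ d, restr Γ y₀ d ∈ AddSubgroup.closure (Elm Γ W) := by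
    intro h d
    have h1 : restr Γ y₀ d = ∑ y, restr Γ y₀ d y • dl y := by
      funext x
      rw [Finset.sum_apply, Finset.sum_eq_single x]
      · simp [dl]
      · intro y _ hne
        simp [dl, Ne.symm hne]
      · intro h
        exact absurd (Finset.mem_univ _) h
    rw [h1]
    refine AddSubgroup.sum_mem _ fun y _ => ?_
    by_cases hy : y ∈ orbit Γ y₀
    · exact AddSubgroup.zsmul_mem _ (AddSubgroup.subset_closure
        (dl_mem fun σ => h _ (hsmul σ y hy))) _
    · have : restr Γ y₀ d y = 0 := if_neg hy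
      rw [this, zero_smul]
      exact AddSubgroup.zero_mem _
  rcases halt with halt | ⟨v, hv, halt⟩ | halt | ⟨v, hv, halt⟩
  · exact Or.inl fun d _ => hZ halt d
  · left
    intro d hd
    by_cases h0 : ∀ z ∈ orbit Γ y₀, W z = 0
    · exact hZ h0 d
    push Not at h0
    obtain ⟨_, ⟨σ₀, rfl⟩, hσ₀⟩ := h0
    have hσ₀' : W (σ₀ • y₀) ≠ 0 := hσ₀
    obtain ⟨x1, hx1, hv1⟩ : ∃ x1 ∈ orbit Γ y₀, v x1 = 1 := by
      rcases hv.1 y₀ (mem_orbit_self _) with h | h
      · exact ⟨y₀, mem_orbit_self _, h⟩
      · exact ⟨cb y₀, hcbo _ (mem_orbit_self _), by rw [hv.2.1 _ (mem_orbit_self _), h]; rfl⟩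
    have hx2 : cb x1 ∈ orbit Γ y₀ := hcbo _ hx1
    have hv2 : v (cb x1) = -1 := by rw [hv.2.1 _ hx1, hv1]
    have hWx : ∀ σ : Γ, ∀ z ∈ orbit Γ y₀, W (σ • z) = W (σ • x1) * v z := by
      intro σ z hz
      have h1 := halt σ z hz x1 hx1
      rw [hv1, mul_one] at h1
      rw [← h1, mul_assoc]
      rcases hv.1 z hz with h | h <;> rw [h] <;> ring
    have hσx : W (σ₀ • x1) ≠ 0 := by
      intro h
      apply hσ₀'
      rw [hWx σ₀ y₀ (mem_orbit_self _), h, zero_mul]
    have hsum : ∑ z ∈ Finset.univ.filter (fun z => z ∈ orbit Γ y₀), d z * v z = 0 := by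
      have h1 := hO d hd σ₀
      have h2 : ∑ z ∈ Finset.univ.filter (fun z => z ∈ orbit Γ y₀), d z * W (σ₀ • z) =
          W (σ₀ • x1) * ∑ z ∈ Finset.univ.filter (fun z => z ∈ orbit Γ y₀), d z * v z := by
        rw [Finset.mul_sum]
        refine Finset.sum_congr rfl fun z hz => ?_
        rw [hWx σ₀ z (Finset.mem_filter.1 hz).2]
        ring
      rw [h2] at h1
      exact (mul_eq_zero.1 h1).resolve_left hσx
    have hpair : ∀ x ∈ orbit Γ y₀, ∀ x' ∈ orbit Γ y₀, v x + v x' = 0 → dl x + dl x' ∈ Elm Γ W := by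
      intro x hx x' hx' h
      refine dl_add_mem fun σ => ?_
      rw [hWx σ x hx, hWx σ x' hx', ← mul_add, h, mul_zero]
    -- the decomposition
    have hdec : restr Γ y₀ d = ∑ z, (restr Γ y₀ d z) • (dl z + if v z = 1 then dl (cb x1) else dl x1) -
        (∑ z, if v z = 1 then restr Γ y₀ d z else 0) • (dl x1 + dl (cb x1)) := by
      have hab : (∑ z, if v z = 1 then restr Γ y₀ d z else 0) =
          ∑ z, if v z = 1 then 0 else restr Γ y₀ d z := by
        have h1 : ∑ z ∈ Finset.univ.filter (fun z => z ∈ orbit Γ y₀), d z * v z =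
            (∑ z, if v z = 1 then restr Γ y₀ d z else 0) -
              ∑ z, if v z = 1 then 0 else restr Γ y₀ d z := by
          rw [← Finset.sum_sub_distrib, Finset.sum_filter]
          refine Finset.sum_congr rfl fun z _ => ?_
          unfold restr
          by_cases hz : z ∈ orbit Γ y₀
          · rw [if_pos hz, if_pos hz]
            rcases hv.1 z hz with h | h
            · simp [h]
            · simp [h]
          · simp [hz]
        rw [hsum] at h1
        omega
      funext x
      rw [Pi.sub_apply, Finset.sum_apply, Pi.smul_apply, Pi.add_apply]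
      have h2 : ∀ z, ((restr Γ y₀ d z) • (dl z + if v z = 1 then dl (cb x1) else dl x1)) x =
          (if z = x then restr Γ y₀ d z else 0) +
            ((if v z = 1 then restr Γ y₀ d z else 0) * dl (cb x1) x +
              (if v z = 1 then 0 else restr Γ y₀ d z) * dl x1 x) := by
        intro z
        have h4 : x = z ↔ z = x := eq_comm
        rw [Pi.smul_apply, Pi.add_apply, smul_eq_mul, mul_add]
        have e1 : restr Γ y₀ d z * dl z x = if z = x then restr Γ y₀ d z else 0 := by
          unfold dl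
          rw [h4]
          split_ifs <;> ring
        rw [e1]
        split_ifs <;> ring
      rw [Finset.sum_congr rfl fun z _ => h2 z, Finset.sum_add_distrib, Finset.sum_add_distrib,
        Finset.sum_ite_eq' Finset.univ x, if_pos (Finset.mem_univ _), ← Finset.sum_mul,
        ← Finset.sum_mul, ← hab, smul_eq_mul]
      ring
    rw [hdec]
    refine AddSubgroup.sub_mem _ (AddSubgroup.sum_mem _ fun z _ => ?_)
      (AddSubgroup.zsmul_mem _ (AddSubgroup.subset_closure
        (hpair _ hx1 _ hx2 (by rw [hv1, hv2]; norm_num))) _)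
    by_cases hz : z ∈ orbit Γ y₀
    · refine AddSubgroup.zsmul_mem _ (AddSubgroup.subset_closure ?_) _
      split_ifs with h
      · exact hpair z hz _ hx2 (by rw [h, hv2]; norm_num)
      · exact hpair z hz _ hx1 (by rw [(hv.1 z hz).resolve_left h, hv1]; norm_num)
    · have : restr Γ y₀ d z = 0 := if_neg hz
      rw [this, zero_smul]
      exact AddSubgroup.zero_mem _
  · left
    intro d hd
    refine sym_mem hcb hne hG hW fun y => ?_
    unfold restr
    rw [hcboi]
    split_ifs with hy
    · have := halt _ (oddRel_of_rel hcb hG hW hd) y hy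
      omega
    · rfl
  · -- the relations are multiples of a sign function
    have hf : ∀ d, Rel Γ W d → ∃ (l : ℤ) (f : Y → ℤ), (∀ y, f (cb y) = f y) ∧
        restr Γ y₀ d = l • NW Γ y₀ v + f := by
      intro d hd
      obtain ⟨l, hl⟩ := halt _ (oddRel_of_rel hcb hG hW hd)
      refine ⟨l, fun y => restr Γ y₀ d y - l * NW Γ y₀ v y, fun y => ?_, ?_⟩
      · unfold restr NW
        simp only [hcboi]
        by_cases hy : y ∈ orbit Γ y₀
        · simp only [hy, true_and, if_true]
          have h1 := hl y hy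
          rw [hv.2.1 y hy]
          rcases hv.1 y hy with h | h
          · rw [h] at h1 ⊢
            norm_num
            omega
          · rw [h] at h1 ⊢
            norm_num
            omega
        · simp [hy]
      · funext y
        rw [Pi.add_apply, Pi.smul_apply, smul_eq_mul]
        ring
    by_cases hall : ∀ d, Rel Γ W d → restr Γ y₀ d ∈ AddSubgroup.closure (Elm Γ W)
    · exact Or.inl hall
    · right
      push Not at hall
      obtain ⟨d₀, hd₀, hn₀⟩ := hall
      refine ⟨v, hv, ?_, fun d hd => ?_⟩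
      · obtain ⟨l, f, hf1, hf2⟩ := hf d₀ hd₀
        have hl : l ≠ 0 := by
          rintro rfl
          apply hn₀
          rw [hf2, zero_smul, zero_add]
          exact sym_mem hcb hne hG hW hf1
        intro σ
        have h1 := hrestr d₀ hd₀ σ
        have h2 := rel_sym hcb hG hW hf1 σ
        rw [hf2] at h1
        have h3 : ∑ y, (l • NW Γ y₀ v + f) y * W (σ • y) =
            l * (∑ y, NW Γ y₀ v y * W (σ • y)) + ∑ y, f y * W (σ • y) := by
          rw [Finset.mul_sum, ← Finset.sum_add_distrib]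
          refine Finset.sum_congr rfl fun y _ => ?_
          rw [Pi.add_apply, Pi.smul_apply, smul_eq_mul]
          ring
        rw [h3, h2, add_zero] at h1
        exact (mul_eq_zero.1 h1).resolve_left hl
      · obtain ⟨l, f, hf1, hf2⟩ := hf d hd
        rw [hf2]
        have hmem : NW Γ y₀ v ∈ AddSubgroup.closure (Elm Γ W ∪ {NW Γ y₀ v}) :=
          AddSubgroup.subset_closure (Set.mem_union_right _ (Set.mem_singleton _))
        refine AddSubgroup.add_mem _ (AddSubgroup.zsmul_mem _ hmem _) ?_
        exact AddSubgroup.closure_mono Set.subset_union_left (sym_mem hcb hne hG hW hf1)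

/-- The sum of the restrictions to the orbits. -/
theorem mem_of_restr {S : AddSubgroup (Y → ℤ)} {d : Y → ℤ}
    (h : ∀ y₀, restr Γ y₀ d ∈ S) : d ∈ S := by
  classical
  let _ : Fintype (orbitRel.Quotient Γ Y) := Fintype.ofFinite _
  have h1 : d = ∑ q : orbitRel.Quotient Γ Y, restr Γ q.out d := by
    funext y
    rw [Finset.sum_apply]
    have h2 : ∀ q : orbitRel.Quotient Γ Y, restr Γ q.out d y =
        if q = Quotient.mk'' y then d y else 0 := by
      intro q
      unfold restr
      congr 1
      rw [eq_iff_iff]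
      constructor
      · intro h3
        rw [← Quotient.out_eq' q]
        exact (Quotient.sound' (orbitRel_apply.2 h3)).symm
      · rintro rfl
        have h3 : (Quotient.mk'' (Quotient.mk'' y : orbitRel.Quotient Γ Y).out :
            orbitRel.Quotient Γ Y) = Quotient.mk'' y := Quotient.out_eq' _
        have h4 := Quotient.exact' h3
        exact mem_orbit_symm.1 (orbitRel_apply.1 h4)
    rw [Finset.sum_congr rfl fun q _ => h2 q, Finset.sum_ite_eq' Finset.univ,
      if_pos (Finset.mem_univ _)]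
  rw [h1]
  exact AddSubgroup.sum_mem _ fun q _ => h _

end Pool.Agent.V7H82.HT
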