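import Pool.Agent.V7H82.HT.Prf

/-!
# All relations are elementary if no large factor is of Weil type
-/

set_option autoImplicit false
set_option linter.unusedSectionVars false
set_option linter.unusedVariables false

namespace Pool.Agent.V7H82.HT

open NumberField Module MulAction
open Pool.Agent.W495.TA Pool.Agent.TH117.PO Pool.Agent.TH117.BL Pool.Agent.N202.QR
open Pool.Agent.V7H82.HS Pool.Agent.V7H82.TT

variable {p : ℕ} [Fact p.Prime] {ν : PadicAlgCl p ≃+* ℂ}

attribute [local instance] embAct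

theorem elementary_of_orb {Z : RedAV p ν}
    (hgood : ∀ w : Emb Z, GoodOrbit (ℂ ≃+* ℂ) conjE w)
    (hind : ∀ w w' : Emb Z, w'.1 ≠ w.1 → ∃ σ : ℂ ≃+* ℂ,
      (σ • w = w ∧ σ • w' = conjE w') ∨ (σ • w = conjE w ∧ σ • w' = w'))
    (hweil : ∀ w : Emb Z, 10 < finrank ℚ (Z.X.factor w.1).E → ∀ v : Emb Z → ℤ,
      OrbSign (ℂ ≃+* ℂ) conjE w v → ¬ IsRel Z (wexp Z w.1 v)) :
    HasElementaryRelations Z := by
  classical
  obtain ⟨W, hWc, hWrel⟩ := exists_W Z
  have hflip : ∀ y z : Emb Z, z ∉ orbit (ℂ ≃+* ℂ) y →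
      Pool.Agent.TH127.SC.Flip (ℂ ≃+* ℂ) conjE y z := by
    intro y z hz
    rw [mem_orbit_emb] at hz
    obtain ⟨σ, hσ | hσ⟩ := hind y z hz
    · exact ⟨σ, Or.inl hσ⟩
    · exact ⟨σ, Or.inr (Or.inl hσ)⟩
  have hElm : Elm (ℂ ≃+* ℂ) W ⊆
      {d : Emb Z → ℤ | ∃ n : Emb Z → ℕ, IsRel Z n ∧ IsElementary Z n ∧ ∀ w, d w = n w} := by
    rintro d ⟨h1, m, h2, h3⟩
    refine ⟨m, ?_, Or.inl h3, h2⟩
    rw [hWrel]
    have : (fun w => (m w : ℤ)) = d := funext fun w => (h2 w).symm
    rw [this]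
    exact h1
  have hsmall : ∀ (y₀ : Emb Z) (v : Emb Z → ℤ), finrank ℚ (Z.X.factor y₀.1).E ≤ 10 →
      IsElementary Z (wexp Z y₀.1 v) := by
    intro y₀ v h
    refine Or.inr (Or.inl ⟨{y₀.1}, Or.inl ⟨?_, ?_⟩, fun w hw => ?_⟩)
    · rw [Finset.sum_eq_single y₀.1]
      · rw [if_pos (Set.mem_singleton _)]
        exact h
      · intro i _ hi
        rw [if_neg (fun h => hi (Set.mem_singleton_iff.1 h))]
      · intro h
        exact absurd (Finset.mem_univ _) h
    · intro i hi k hk hik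
      exact absurd ((Set.mem_singleton_iff.1 hi).trans (Set.mem_singleton_iff.1 hk).symm) hik
    · by_contra h1
      apply hw
      unfold wexp
      rw [if_neg]
      rintro ⟨h2, -⟩
      exact h1 h2
  intro e he
  refine mem_of_restr (Γ := ℂ ≃+* ℂ) fun y₀ => ?_
  have hd := (hWrel e).1 he
  rcases gen_orb (Γ := ℂ ≃+* ℂ) (cb := conjE) (W := W) conjE_conjE conjE_ne act_conj hWc
      conjE_mem_orbit hflip (hgood y₀) with h | ⟨v, hv, h1, h2⟩
  · exact AddSubgroup.closure_mono hElm (h _ hd)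
  · have h3 : IsRel Z (wexp Z y₀.1 v) := by
      rw [hWrel, ← nw_eq]
      exact h1
    have h10 : finrank ℚ (Z.X.factor y₀.1).E ≤ 10 := by
      by_contra h10
      exact hweil y₀ (not_le.1 h10) v hv h3
    refine AddSubgroup.closure_mono (Set.union_subset hElm ?_) (h2 _ hd)
    rintro _ rfl
    exact ⟨_, h3, hsmall y₀ v h10, fun w => congrFun (nw_eq y₀ v) w⟩

/-- **The relations between the Frobenius eigenvalues are elementary** if the CM fields are good, the
factors are independent and no factor of dimension larger than five is of Weil type. -/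
theorem elementary_of_good {Z : RedAV p ν} (hgood : ∀ i : Z.X.I, IsGoodField (Z.X.factor i).E)
    (hind : AreIndependent Z)
    (hweil : ∀ i : Z.X.I, 10 < finrank ℚ (Z.X.factor i).E → ¬ IsWeilType Z i) :
    HasElementaryRelations Z := by
  classical
  refine elementary_of_orb (fun w => goodOrbit_of w (hgood w.1)) ?_ ?_
  · rintro ⟨i, φ⟩ ⟨k, ψ⟩ hik
    obtain ⟨σ, hσ⟩ := hind i k (Ne.symm hik) φ ψ
    refine ⟨σ, hσ.imp (fun h => ⟨?_, ?_⟩) (fun h => ⟨?_, ?_⟩)⟩
    · exact congrArg (Sigma.mk i) h.1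
    · exact congrArg (Sigma.mk k) h.2
    · exact congrArg (Sigma.mk i) h.1
    · exact congrArg (Sigma.mk k) h.2
  · rintro ⟨i, φ₀⟩ h10 v hv hrel
    refine hweil i h10 ?_
    have horb : ∀ φ : (Z.X.factor i).E →+* ℂ,
        (⟨i, φ⟩ : Emb Z) ∈ orbit (ℂ ≃+* ℂ) (⟨i, φ₀⟩ : Emb Z) := fun φ =>
      mem_orbit_emb.2 rfl
    obtain ⟨s, hs, h1⟩ := hrel
    refine ⟨fun φ => v ⟨i, φ⟩, ⟨fun φ => hv.1 _ (horb φ), fun φ => hv.2.1 _ (horb φ),
      fun σ φ ψ => hv.2.2 σ _ (horb φ) _ (horb ψ)⟩, s, hs, ?_⟩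
    have e1 : ∏ w, eig Z w ^ wexp Z i v w =
        ∏ φ : (Z.X.factor i).E →+* ℂ, if v ⟨i, φ⟩ = 1 then φ (Z.π i) else 1 := by
      rw [Fintype.prod_sigma, Finset.prod_eq_single i]
      · refine Finset.prod_congr rfl fun φ _ => ?_
        unfold wexp eig
        by_cases h : v ⟨i, φ⟩ = 1
        · rw [if_pos ⟨rfl, h⟩, if_pos h, pow_one]
        · rw [if_neg (fun h' => h h'.2), if_neg h, pow_zero]
      · intro k _ hk
        refine Finset.prod_eq_one fun φ _ => ?_
        unfold wexp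
        rw [if_neg (fun h' => hk h'.1), pow_zero]
      · intro h
        exact absurd (Finset.mem_univ _) h
    have e2 : ∑ w, wexp Z i v w =
        (Finset.univ.filter fun φ : (Z.X.factor i).E →+* ℂ => v ⟨i, φ⟩ = 1).card := by
      rw [Fintype.sum_sigma, Finset.sum_eq_single i, Finset.card_filter]
      · refine Finset.sum_congr rfl fun φ _ => ?_
        unfold wexp
        by_cases h : v ⟨i, φ⟩ = 1
        · rw [if_pos ⟨rfl, h⟩, if_pos h]
        · rw [if_neg (fun h' => h h'.2), if_neg h]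
      · intro k _ hk
        refine Finset.sum_eq_zero fun φ _ => ?_
        unfold wexp
        rw [if_neg (fun h' => hk h'.1)]
      · intro h
        exact absurd (Finset.mem_univ _) h
    rw [← e1, ← e2]
    exact h1

end Pool.Agent.V7H82.HT
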