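import Pool.Agent.N202.QR.PrimeRel
import Pool.Agent.V7H82.HT.Gen
import Pool.Agent.Y4.Aut

/-!
# The action of the automorphisms of the complex numbers on the Frobenius eigenvalues
-/

set_option autoImplicit false
set_option linter.unusedSectionVars false
set_option linter.unusedVariables false

namespace Pool.Agent.V7H82.HT

open NumberField Pool.Agent.H204R3.CM Pool.Agent.W547.KB Pool.Agent.W547.LD Pool.Agent.W547.HR
  Pool.Agent.W495.TA Module Pool.Agent.TH117.PO Pool.Agent.W976.TA Pool.Agent.W417.TA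
  Pool.Agent.TH117.BL Pool.Agent.W495.TC Pool.Agent.W495.TB Pool.Agent.TH117.F5
  Pool.Agent.N202.QR MulAction

noncomputable section

variable {p : ℕ} [Fact p.Prime] {ν : PadicAlgCl p ≃+* ℂ}

/-- The action on the embeddings. -/
@[reducible] def embAct (Z : RedAV p ν) : MulAction (ℂ ≃+* ℂ) (Emb Z) where
  smul σ w := ⟨w.1, (σ : ℂ →+* ℂ).comp w.2⟩
  one_smul _ := rfl
  mul_smul _ _ _ := rfl

attribute [local instance] embAct

theorem act_def {Z : RedAV p ν} (σ : ℂ ≃+* ℂ) (w : Emb Z) :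
    σ • w = (⟨w.1, (σ : ℂ →+* ℂ).comp w.2⟩ : Emb Z) := rfl

theorem comp_conjugate {E : Type} [Field E] [NumberField E] [IsCMField E] (σ : ℂ ≃+* ℂ)
    (φ : E →+* ℂ) : (σ : ℂ →+* ℂ).comp (ComplexEmbedding.conjugate φ) =
      ComplexEmbedding.conjugate ((σ : ℂ →+* ℂ).comp φ) := by
  ext x
  rw [RingHom.comp_apply, ComplexEmbedding.conjugate_coe_eq, ComplexEmbedding.conjugate_coe_eq,
    ← IsCMField.complexEmbedding_complexConj, ← IsCMField.complexEmbedding_complexConj]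
  rfl

theorem act_conj {Z : RedAV p ν} (σ : ℂ ≃+* ℂ) (w : Emb Z) : σ • conjE w = conjE (σ • w) :=
  Sigma.ext rfl (heq_of_eq (comp_conjugate σ w.2))

theorem mem_orbit_emb {Z : RedAV p ν} {w w' : Emb Z} : w' ∈ orbit (ℂ ≃+* ℂ) w ↔ w'.1 = w.1 := by
  constructor
  · rintro ⟨σ, rfl⟩
    rfl
  · obtain ⟨i, φ⟩ := w
    obtain ⟨i', φ'⟩ := w'
    intro h
    obtain rfl : i' = i := h
    obtain ⟨σ, hσ⟩ := Pool.Agent.Y4.exists_aut_emb φ φ'
    exact ⟨σ, Sigma.ext rfl (heq_of_eq hσ)⟩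

theorem conjE_mem_orbit {Z : RedAV p ν} (w : Emb Z) : conjE w ∈ orbit (ℂ ≃+* ℂ) w :=
  mem_orbit_emb.2 rfl

/-- The relations between the Frobenius eigenvalues are the relations between the translates of a
function on the embeddings. -/
theorem exists_W (Z : RedAV p ν) : ∃ W : Emb Z → ℤ, (∀ w, W (conjE w) = -W w) ∧
    ∀ e : Emb Z → ℕ, IsRel Z e ↔ Rel (ℂ ≃+* ℂ) W (fun w => (e w : ℤ)) := by
  classical
  have hne : Nonempty (Z.X.prod (single (kp p))).I := ⟨Sum.inr ()⟩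
  obtain ⟨L, _, _, _, _, j, hj⟩ := exists_cm (Z.X.prod (single (kp p)))
  have hZ : Big Z.X j := fun i ψ => hj (Sum.inl i) ψ
  have hfin := finite_wt j hZ
  let _ : Fintype (Wt Z.X L) := Fintype.ofFinite _
  have hbij := toEmb_bijective (j := j) hZ
  let E : Wt Z.X L ≃ Emb Z := Equiv.ofBijective _ hbij
  have hE : ∀ w, E w = toEmb j Z w := fun w => rfl
  have hact : ∀ (g : L ≃ₐ[ℚ] L) (σ : ℂ ≃+* ℂ), (∀ x, j (g x) = σ (j x)) → ∀ w : Wt Z.X L,
      σ • E w = E (sw g w) := by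
    intro g σ h w
    refine Sigma.ext rfl (heq_of_eq ?_)
    ext x
    exact (h (w.2 x)).symm
  have htw : ∀ (g : L ≃ₐ[ℚ] L) (w : Wt Z.X L), tw p ν j Z.X (sw g w) 1 = tw p ν j Z.X w g := by
    intro g w
    rw [tw_sw, one_mul]
  refine ⟨fun w => tw p ν j Z.X (E.symm w) 1, fun w => ?_, fun e => ?_⟩
  · obtain ⟨u, rfl⟩ := E.surjective w
    have h1 : conjE (E u) = E (cw Z u) := (toEmb_cw u).symm
    simp only [h1, E.symm_apply_apply, tw_cw, Pi.neg_apply]
  · rw [isRel_iff hZ]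
    have key : ∀ (g : L ≃ₐ[ℚ] L) (σ : ℂ ≃+* ℂ), (∀ x, j (g x) = σ (j x)) →
        ∑ w : Emb Z, (e w : ℤ) * tw p ν j Z.X (E.symm (σ • w)) 1 =
          ∑ w : Wt Z.X L, (e (toEmb j Z w) : ℤ) * tw p ν j Z.X w g := by
      intro g σ h
      rw [← Equiv.sum_comp E]
      refine Finset.sum_congr rfl fun w _ => ?_
      rw [hact g σ h, E.symm_apply_apply, htw]
      rfl
    constructor
    · intro h σ
      obtain ⟨g, hg⟩ := exists_aut (j := j) ((σ : ℂ →+* ℂ).comp j)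
      rw [key g σ hg]
      exact h g
    · intro h g
      obtain ⟨σ, hσ⟩ := Pool.Agent.Y4.exists_aut_emb j (j.comp (g : L →+* L))
      rw [← key g σ (fun x => (RingHom.congr_fun hσ x).symm)]
      exact h σ

/-- A function which changes at most its sign under automorphisms is invariant under the
automorphisms over an imaginary quadratic field. -/
theorem quad_field {Z : RedAV p ν} (a : Emb Z → ℤ) (hconj : ∀ w, a (conjE w) = -a w)
    (hpm : ∀ τ : ℂ ≃+* ℂ, (∀ w, a (τ • w) = a w) ∨ ∀ w, a (τ • w) = -a w)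
    (hne0 : ∃ w, a w ≠ 0) :
    ∃ (K : Type) (_ : Field K) (_ : NumberField K) (_ : IsCMField K) (_ : finrank ℚ K = 2)
      (κ : K →+* ℂ), ∀ τ : ℂ ≃+* ℂ, (∀ x, τ (κ x) = κ x) → ∀ w, a (τ • w) = a w := by
  classical
  obtain ⟨w0, hw0⟩ := hne0
  have hne : Nonempty (Z.X.prod (single (kp p))).I := ⟨Sum.inr ()⟩
  obtain ⟨L, _, _, _, _, j, hj⟩ := exists_cm (Z.X.prod (single (kp p)))
  have hZ : Big Z.X j := fun i ψ => hj (Sum.inl i) ψ
  have hbij := toEmb_bijective (j := j) hZ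
  have hact : ∀ (g : L ≃ₐ[ℚ] L) (σ : ℂ ≃+* ℂ), (∀ x, j (g x) = σ (j x)) → ∀ w : Wt Z.X L,
      σ • toEmb j Z w = toEmb j Z (sw g w) := by
    intro g σ h w
    refine Sigma.ext rfl (heq_of_eq ?_)
    ext x
    exact (h (w.2 x)).symm
  have hcw : ∀ w, a (toEmb j Z (cw Z w)) = -a (toEmb j Z w) := by
    intro w
    rw [toEmb_cw, hconj]
  obtain ⟨w1, hw1⟩ := hbij.2 w0
  have hw1' : a (toEmb j Z w1) ≠ 0 := by rw [hw1]; exact hw0
  have hpm' : ∀ g : L ≃ₐ[ℚ] L, (∀ w, a (toEmb j Z (sw g w)) = a (toEmb j Z w)) ∨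
      ∀ w, a (toEmb j Z (sw g w)) = -a (toEmb j Z w) := by
    intro g
    obtain ⟨σ, hσ⟩ := Pool.Agent.Y4.exists_aut_emb j (j.comp (g : L →+* L))
    have h1 := hact g σ (fun x => (RingHom.congr_fun hσ x).symm)
    rcases hpm σ with h | h
    · exact Or.inl fun w => by rw [← h1, h]
    · exact Or.inr fun w => by rw [← h1, h]
  let N : Subgroup (L ≃ₐ[ℚ] L) :=
    { carrier := {σ | ∀ w, a (toEmb j Z (sw σ w)) = a (toEmb j Z w)}
      one_mem' := fun w => by rw [sw_one]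
      mul_mem' := by
        intro σ τ h1 h2 w
        have h1' : ∀ w, a (toEmb j Z (sw σ w)) = a (toEmb j Z w) := h1
        have h2' : ∀ w, a (toEmb j Z (sw τ w)) = a (toEmb j Z w) := h2
        rw [sw_mul, h1', h2']
      inv_mem' := by
        intro σ h1 w
        have h1' : ∀ w, a (toEmb j Z (sw σ w)) = a (toEmb j Z w) := h1
        rw [← h1' (sw σ⁻¹ w), ← sw_mul, mul_inv_cancel, sw_one] }
  have hmemN : ∀ σ, σ ∈ N ↔ ∀ w, a (toEmb j Z (sw σ w)) = a (toEmb j Z w) := fun σ => Iff.rfl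
  have hN : IsImag N := by
    constructor
    · intro h
      have h1 : a (toEmb j Z (cw Z w1)) = a (toEmb j Z w1) := h w1
      rw [hcw] at h1
      omega
    · intro τ hτ w
      have h1 : ∀ w, a (toEmb j Z (sw τ w)) = -a (toEmb j Z w) := (hpm' τ).resolve_left hτ
      have h2 : sw (cc L * τ) w = cw Z (sw τ w) := sw_cc τ w
      rw [h2, hcw, h1, neg_neg]
  have hS : IsHalf (N : Set (L ≃ₐ[ℚ] L)) := by
    intro σ
    change σ ∈ N ↔ ¬ (cc L * σ ∈ N)
    rw [hN.mul_mem_iff j]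
    have := hN.1
    tauto
  have hstab : ∀ τ, τ ∈ stab (N : Set (L ≃ₐ[ℚ] L)) ↔ τ ∈ N := by
    intro τ
    rw [mem_stab]
    constructor
    · intro h
      have h1 : (1 : L ≃ₐ[ℚ] L) ∈ tr τ (N : Set (L ≃ₐ[ℚ] L)) := by
        rw [h]
        exact N.one_mem
      rw [mem_tr, one_mul] at h1
      exact h1
    · intro h
      ext σ
      rw [mem_tr]
      exact N.mul_mem_cancel_right h
  have hCM : IsCMField (fld (N : Set (L ≃ₐ[ℚ] L))) := isCM_fld j hS
  let κ : fld (N : Set (L ≃ₐ[ℚ] L)) →+* ℂ := j.comp (emb (N : Set (L ≃ₐ[ℚ] L)) 1)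
  have hfix : ∀ x : fld (N : Set (L ≃ₐ[ℚ] L)), κ x = j x := fun x => rfl
  have htwo : finrank ℚ (fld (N : Set (L ≃ₐ[ℚ] L))) = 2 := by
    have h1 : ({κ, ComplexEmbedding.conjugate κ} :
        Finset (fld (N : Set (L ≃ₐ[ℚ] L)) →+* ℂ)) = Finset.univ := by
      refine Finset.eq_univ_iff_forall.2 fun ψ => ?_
      rw [Finset.mem_insert, Finset.mem_singleton]
      obtain ⟨τ, rfl⟩ := exists_embC j (N : Set (L ≃ₐ[ℚ] L)) ψ
      by_cases hτ : τ ∈ N
      · left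
        have h2 : emb (N : Set (L ≃ₐ[ℚ] L)) τ = emb (N : Set (L ≃ₐ[ℚ] L)) 1 := by
          rw [emb_eq_iff, tr_one]
          exact (hstab τ).2 hτ
        rw [h2]
      · right
        have h2 : emb (N : Set (L ≃ₐ[ℚ] L)) (cc L * τ) = emb (N : Set (L ≃ₐ[ℚ] L)) 1 := by
          rw [emb_eq_iff, tr_one]
          exact (hstab _).2 (hN.2 τ hτ)
        change _ = ComplexEmbedding.conjugate (j.comp (emb (N : Set (L ≃ₐ[ℚ] L)) 1))
        rw [← h2, ← conj_emb]
        exact (star_star _).symm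
    rw [← Embeddings.card (fld (N : Set (L ≃ₐ[ℚ] L))) ℂ, ← Finset.card_univ, ← h1,
      Finset.card_pair (conj_ne κ).symm]
  refine ⟨fld (N : Set (L ≃ₐ[ℚ] L)), inferInstance, inferInstance, hCM, htwo, κ, ?_⟩
  intro τ hτ w
  obtain ⟨v, rfl⟩ := hbij.2 w
  obtain ⟨σ, hσ⟩ := exists_aut (j := j) ((τ : ℂ →+* ℂ).comp j)
  have hσN : σ ∈ N := by
    rw [← hstab, mem_stab_iff]
    intro x hx
    apply j.injective
    rw [hσ]
    exact hτ ⟨x, hx⟩
  rw [hact σ τ hσ]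
  exact hσN v

end

end Pool.Agent.V7H82.HT
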