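import Pool.Agent.V7H82.HT.Emb

/-!
# Relations between the Frobenius eigenvalues of independent good factors
-/

set_option autoImplicit false
set_option linter.unusedSectionVars false
set_option linter.unusedVariables false

namespace Pool.Agent.V7H82.HT

open NumberField Pool.Agent.H204R3.CM Pool.Agent.W547.KB Pool.Agent.W547.LD Pool.Agent.W547.HR
  Pool.Agent.W495.TA Module Pool.Agent.TH117.PO Pool.Agent.W976.TA Pool.Agent.W417.TA
  Pool.Agent.TH117.BL Pool.Agent.W495.TC Pool.Agent.W495.TB Pool.Agent.TH117.F5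
  Pool.Agent.N202.QR MulAction Pool.Agent.V7H82.TT

noncomputable section

variable {p : ℕ} [Fact p.Prime] {ν : PadicAlgCl p ≃+* ℂ}

attribute [local instance] embAct

open Classical in
/-- The exponents of the eigenvalues of the factor `i` at which `v` is one. -/
def wexp (Z : RedAV p ν) (i : Z.X.I) (v : Emb Z → ℤ) (w : Emb Z) : ℕ :=
  if w.1 = i ∧ v w = 1 then 1 else 0

theorem nw_eq {Z : RedAV p ν} (y₀ : Emb Z) (v : Emb Z → ℤ) :
    NW (ℂ ≃+* ℂ) y₀ v = fun w => (wexp Z y₀.1 v w : ℤ) := by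
  classical
  funext w
  unfold NW wexp
  rw [mem_orbit_emb]
  split_ifs <;> simp

/-- **The relations** are generated by elementary ones and by relations which are invariant over
an imaginary quadratic field. -/
theorem quad_of_good {Z : RedAV p ν}
    (hgood : ∀ w : Emb Z, GoodOrbit (ℂ ≃+* ℂ) conjE w)
    (hind : ∀ w w' : Emb Z, w'.1 ≠ w.1 → ∃ σ : ℂ ≃+* ℂ,
      (σ • w = w ∧ σ • w' = conjE w') ∨ (σ • w = conjE w ∧ σ • w' = w'))
    (hweil : ∀ w w' : Emb Z, w'.1 ≠ w.1 → 10 < finrank ℚ (Z.X.factor w.1).E →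
      10 < finrank ℚ (Z.X.factor w'.1).E → ∀ v v' : Emb Z → ℤ,
      OrbSign (ℂ ≃+* ℂ) conjE w v → OrbSign (ℂ ≃+* ℂ) conjE w' v' →
      IsRel Z (wexp Z w.1 v) → ¬ IsRel Z (wexp Z w'.1 v')) :
    ∃ (K : Type) (_ : Field K) (_ : NumberField K) (_ : IsCMField K) (_ : finrank ℚ K = 2)
      (κ : K →+* ℂ), HasQuadRelE κ Z := by
  classical
  obtain ⟨W, hWc, hWrel⟩ := exists_W Z
  have hflip : ∀ y z : Emb Z, z ∉ orbit (ℂ ≃+* ℂ) y →
      Pool.Agent.TH127.SC.Flip (ℂ ≃+* ℂ) conjE y z := by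
    intro y z hz
    rw [mem_orbit_emb] at hz
    obtain ⟨σ, hσ | hσ⟩ := hind y z hz
    · exact ⟨σ, Or.inl hσ⟩
    · exact ⟨σ, Or.inr (Or.inl hσ)⟩
  have hgen : ∀ y₀ : Emb Z, (∀ d, Rel (ℂ ≃+* ℂ) W d → restr (ℂ ≃+* ℂ) y₀ d ∈
        AddSubgroup.closure (Elm (ℂ ≃+* ℂ) W)) ∨
      ∃ v : Emb Z → ℤ, OrbSign (ℂ ≃+* ℂ) conjE y₀ v ∧ IsRel Z (wexp Z y₀.1 v) ∧
        ∀ d, Rel (ℂ ≃+* ℂ) W d → restr (ℂ ≃+* ℂ) y₀ d ∈
          AddSubgroup.closure (Elm (ℂ ≃+* ℂ) W ∪ {fun w => (wexp Z y₀.1 v w : ℤ)}) := by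
    intro y₀
    rcases gen_orb (Γ := ℂ ≃+* ℂ) (cb := conjE) (W := W) conjE_conjE conjE_ne act_conj hWc
      conjE_mem_orbit hflip (hgood y₀) with h | ⟨v, hv, h1, h2⟩
    · exact Or.inl h
    · refine Or.inr ⟨v, hv, ?_, ?_⟩
      · rw [hWrel, ← nw_eq]
        exact h1
      · rw [← nw_eq]
        exact h2
  -- elementary relations
  have hElm : ∀ {K : Type} [Field K] (κ : K →+* ℂ), Elm (ℂ ≃+* ℂ) W ⊆
      {d : Emb Z → ℤ | ∃ n : Emb Z → ℕ, IsRel Z n ∧ (IsElementary Z n ∨ IsInvariant κ Z n) ∧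
        ∀ w, d w = n w} := by
    rintro K _ κ d ⟨h1, m, h2, h3⟩
    refine ⟨m, ?_, Or.inl (Or.inl h3), h2⟩
    rw [hWrel]
    have : (fun w => (m w : ℤ)) = d := funext fun w => (h2 w).symm
    rw [this]
    exact h1
  have hsmall : ∀ (y₀ : Emb Z) (v : Emb Z → ℤ), finrank ℚ (Z.X.factor y₀.1).E ≤ 10 →
      IsElementary Z (wexp Z y₀.1 v) := by
    intro y₀ v h
    refine Or.inr (Or.inl ⟨{y₀.1}, Or.inl ⟨?_, ?_⟩, fun w hw => ?_⟩)
    · rw [Finset.sum_eq_single y₀.1]
      · rw [if_pos (Set.mem_singleton _)]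
        exact h
      · intro i _ hi
        rw [if_neg (fun h => hi (Set.mem_singleton_iff.1 h))]
      · intro h
        exact absurd (Finset.mem_univ _) h
    · intro i hi k hk hik
      exact absurd ((Set.mem_singleton_iff.1 hi).trans (Set.mem_singleton_iff.1 hk).symm) hik
    · by_contra h1
      apply hw
      unfold wexp
      rw [if_neg]
      rintro ⟨h2, -⟩
      exact h1 h2
  -- the restriction to an orbit, given the field
  have hfin : ∀ {K : Type} [Field K] (κ : K →+* ℂ),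
      (∀ y₀ v, OrbSign (ℂ ≃+* ℂ) conjE y₀ v → IsRel Z (wexp Z y₀.1 v) →
        10 < finrank ℚ (Z.X.factor y₀.1).E →
        (∀ d, Rel (ℂ ≃+* ℂ) W d → restr (ℂ ≃+* ℂ) y₀ d ∈
          AddSubgroup.closure (Elm (ℂ ≃+* ℂ) W ∪ {fun w => (wexp Z y₀.1 v w : ℤ)})) →
        ∀ d, Rel (ℂ ≃+* ℂ) W d → restr (ℂ ≃+* ℂ) y₀ d ∈ AddSubgroup.closure
          {d : Emb Z → ℤ | ∃ n : Emb Z → ℕ, IsRel Z n ∧ (IsElementary Z n ∨ IsInvariant κ Z n) ∧
            ∀ w, d w = n w}) → HasQuadRelE κ Z := by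
    intro K _ κ hbig e he
    refine mem_of_restr (Γ := ℂ ≃+* ℂ) fun y₀ => ?_
    have hd := (hWrel e).1 he
    rcases hgen y₀ with h | ⟨v, hv, h1, h2⟩
    · exact AddSubgroup.closure_mono (hElm κ) (h _ hd)
    · by_cases h10 : 10 < finrank ℚ (Z.X.factor y₀.1).E
      · exact hbig y₀ v hv h1 h10 h2 _ hd
      · refine AddSubgroup.closure_mono (Set.union_subset (hElm κ) ?_) (h2 _ hd)
        rintro _ rfl
        exact ⟨_, h1, Or.inl (hsmall y₀ v (not_lt.1 h10)), fun w => rfl⟩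
  by_cases hbad : ∃ (y₀ : Emb Z) (v : Emb Z → ℤ), OrbSign (ℂ ≃+* ℂ) conjE y₀ v ∧
      IsRel Z (wexp Z y₀.1 v) ∧ 10 < finrank ℚ (Z.X.factor y₀.1).E ∧
      ∀ d, Rel (ℂ ≃+* ℂ) W d → restr (ℂ ≃+* ℂ) y₀ d ∈
        AddSubgroup.closure (Elm (ℂ ≃+* ℂ) W ∪ {fun w => (wexp Z y₀.1 v w : ℤ)})
  · obtain ⟨y₀, v, hv, hrel, h10, hall⟩ := hbad
    have horb : ∀ w : Emb Z, w.1 = y₀.1 → w ∈ orbit (ℂ ≃+* ℂ) y₀ := fun w h => mem_orbit_emb.2 h
    have hsq : ∀ w ∈ orbit (ℂ ≃+* ℂ) y₀, v w * v w = 1 := by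
      intro w hw
      rcases hv.1 w hw with h | h <;> rw [h] <;> norm_num
    obtain ⟨K, _, _, _, hK, κ, hκ⟩ := quad_field (Z := Z) (fun w => if w.1 = y₀.1 then v w else 0)
      (fun w => by
        have h1 : (conjE w).1 = w.1 := rfl
        by_cases h : w.1 = y₀.1
        · simp only [h1, h, if_true]
          exact hv.2.1 w (horb w h)
        · simp only [h1, h, if_false, neg_zero])
      (fun τ => by
        have h1 : ∀ w : Emb Z, (τ • w).1 = w.1 := fun w => rfl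
        have h2 : ∀ w : Emb Z, w.1 = y₀.1 → v (τ • w) = v w * (v (τ • y₀) * v y₀) := by
          intro w hw
          have h3 := hv.2.2 τ w (horb w hw) y₀ (mem_orbit_self _)
          have h4 := hsq (τ • y₀) (horb _ rfl)
          calc v (τ • w) = v (τ • w) * (v (τ • y₀) * v (τ • y₀)) := by rw [h4, mul_one]
            _ = (v (τ • w) * v (τ • y₀)) * v (τ • y₀) := by ring
            _ = _ := by rw [h3]; ring
        have h5 : v (τ • y₀) * v y₀ = 1 ∨ v (τ • y₀) * v y₀ = -1 := by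
          rcases hv.1 (τ • y₀) (horb _ rfl) with h | h <;>
            rcases hv.1 y₀ (mem_orbit_self _) with h' | h' <;> rw [h, h'] <;> norm_num
        rcases h5 with h5 | h5
        · left
          intro w
          by_cases h : w.1 = y₀.1
          · simp only [h1, h, if_true]
            rw [h2 w h, h5, mul_one]
          · simp only [h1, h, if_false]
        · right
          intro w
          by_cases h : w.1 = y₀.1
          · simp only [h1, h, if_true]
            rw [h2 w h, h5]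
            ring
          · simp only [h1, h, if_false, neg_zero])
      ⟨y₀, by
        simp only [if_true]
        intro h
        have := hsq y₀ (mem_orbit_self _)
        rw [h] at this
        norm_num at this⟩
    refine ⟨K, inferInstance, inferInstance, inferInstance, hK, κ, hfin κ ?_⟩
    intro y₁ v₁ hv₁ hrel₁ h10₁ hall₁ d hd
    by_cases h : y₁.1 = y₀.1
    · have h1 : restr (ℂ ≃+* ℂ) y₁ d = restr (ℂ ≃+* ℂ) y₀ d := by
        funext w
        unfold restr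
        rw [mem_orbit_emb, mem_orbit_emb, h]
      rw [h1]
      refine AddSubgroup.closure_mono (Set.union_subset (hElm κ) ?_) (hall _ hd)
      rintro _ rfl
      refine ⟨_, hrel, Or.inr fun σ hσ w => ?_, fun w => rfl⟩
      have h2 := hκ σ hσ w
      change wexp Z y₀.1 v (σ • w) = wexp Z y₀.1 v w
      have h3 : (σ • w).1 = w.1 := rfl
      unfold wexp
      by_cases h4 : w.1 = y₀.1
      · simp only [h3, h4, if_true] at h2
        simp only [h3, h4, true_and, h2]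
      · simp only [h3, h4, false_and]
    · exact absurd hrel₁ (hweil y₀ y₁ h h10 h10₁ v v₁ hv hv₁ hrel)
  · obtain ⟨κ⟩ : Nonempty ((kp p).E →+* ℂ) := inferInstance
    refine ⟨(kp p).E, inferInstance, inferInstance, inferInstance, finrank_kp p, κ, hfin κ ?_⟩
    intro y₀ v hv h1 h2 h3
    exact absurd ⟨y₀, v, hv, h1, h2, h3⟩ hbad

end

end Pool.Agent.V7H82.HT
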