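import Pool.Agent.N202.QR.Defs

/-!
# Good CM fields, independent factors and factors of Weil type: definitions
-/

set_option autoImplicit false

namespace Pool.Agent.V7H82.HS

open NumberField Module
open Pool.Agent.W495.TA

section fields

variable {E : Type} [Field E]

/-- The embedding `φ` followed by the automorphism `σ` of the complex numbers. -/
def move (σ : ℂ ≃+* ℂ) (φ : E →+* ℂ) : E →+* ℂ := (σ : ℂ →+* ℂ).comp φ

/-- `ψ` is equal to `φ` or to its complex conjugate. For a CM field this means that `φ` and `ψ` have
the same restriction to the maximal real subfield. -/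
def SamePair (φ ψ : E →+* ℂ) : Prop := ψ = φ ∨ ψ = ComplexEmbedding.conjugate φ

variable (E)

/-- Any two different embeddings of the real subfield of `E` can be moved to any two different
embeddings, in some order, by an automorphism of the complex numbers. -/
def IsTwoHomogeneous : Prop :=
  ∀ x y x' y' : E →+* ℂ, ¬ SamePair x y → ¬ SamePair x' y' → ∃ σ : ℂ ≃+* ℂ,
    (SamePair x' (move σ x) ∧ SamePair y' (move σ y)) ∨
    (SamePair y' (move σ x) ∧ SamePair x' (move σ y))

/-- Any three different embeddings of the real subfield of `E` can be moved to any three different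
embeddings, in some order, by an automorphism of the complex numbers. -/
def IsThreeHomogeneous : Prop :=
  ∀ x y : Fin 3 → (E →+* ℂ), (∀ i k, i ≠ k → ¬ SamePair (x k) (x i)) →
    (∀ i k, i ≠ k → ¬ SamePair (y k) (y i)) →
      ∃ (σ : ℂ ≃+* ℂ) (π : Equiv.Perm (Fin 3)), ∀ i, SamePair (y (π i)) (move σ (x i))

/-- The real subfield of `E` has no subfields besides itself and `ℚ`: the blocks of embeddings of the
real subfield are trivial. -/
def IsPrimitive : Prop :=
  ∀ (B : Set (E →+* ℂ)) (φ : E →+* ℂ), φ ∈ B → (∀ ψ ∈ B, ComplexEmbedding.conjugate ψ ∈ B) →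
    (∀ σ : ℂ ≃+* ℂ, (∃ ψ ∈ B, move σ ψ ∈ B) → ∀ ψ ∈ B, move σ ψ ∈ B) →
      (∀ ψ ∈ B, SamePair φ ψ) ∨ B = Set.univ

/-- The Galois closure of `E` has degree more than two over the Galois closure of its real subfield:
some automorphism of the complex numbers which fixes all embeddings of the real subfield fixes an
embedding of `E` and moves another one. -/
def IsMixed : Prop :=
  ∃ σ : ℂ ≃+* ℂ, (∀ φ : E →+* ℂ, SamePair φ (move σ φ)) ∧
    (∃ φ : E →+* ℂ, move σ φ = φ) ∧ ∃ φ : E →+* ℂ, move σ φ ≠ φ

/-- The good CM fields. -/
def IsGoodField [NumberField E] : Prop :=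
  ∃ n : ℕ, finrank ℚ E = 2 * n ∧ (n = 1 ∨ n.Prime ∨
    (IsTwoHomogeneous E ∧ (Odd n ∨ (n - 1).Prime ∨ IsThreeHomogeneous E)) ∨
    (IsPrimitive E ∧ IsMixed E))

end fields

variable {p : ℕ} [Fact p.Prime] {ν : PadicAlgCl p ≃+* ℂ}

/-- The factors of `Z` are independent: for any two embeddings of the CM fields of two different
factors some automorphism of the complex numbers fixes one of them and conjugates the other. -/
def AreIndependent (Z : RedAV p ν) : Prop :=
  ∀ (i k : Z.X.I), i ≠ k → ∀ (φ : (Z.X.factor i).E →+* ℂ) (ψ : (Z.X.factor k).E →+* ℂ),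
    ∃ σ : ℂ ≃+* ℂ, (move σ φ = φ ∧ move σ ψ = ComplexEmbedding.conjugate ψ) ∨
      (move σ φ = ComplexEmbedding.conjugate φ ∧ move σ ψ = ψ)

/-- `v` is a sign function on the embeddings of the field `E`: it has the values `1` and `-1`, it is
odd, and it is invariant under automorphisms up to signs which do not depend on the embedding. For a
CM field these functions correspond to the imaginary quadratic subfields (with a complex embedding):
the value is `1` at the embeddings which extend the embedding of the subfield. -/
def IsSign {E : Type} [Field E] (v : (E →+* ℂ) → ℤ) : Prop :=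
  (∀ φ, v φ = 1 ∨ v φ = -1) ∧ (∀ φ, v (ComplexEmbedding.conjugate φ) = -v φ) ∧
    ∀ (σ : ℂ ≃+* ℂ) (φ ψ : E →+* ℂ), v (move σ φ) * v (move σ ψ) = v φ * v ψ

open Classical in
/-- The factor `i` of `Z` is of Weil type: the product of the eigenvalues `φ (π i)` over the
embeddings `φ` which extend an embedding of an imaginary quadratic subfield (that is, over the
embeddings at which a sign function is one) is a power of the square root of `q = p ^ a`, up to a root
of unity. -/
def IsWeilType (Z : RedAV p ν) (i : Z.X.I) : Prop :=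
  ∃ v : ((Z.X.factor i).E →+* ℂ) → ℤ, IsSign v ∧ ∃ s : ℕ, 0 < s ∧
    (∏ φ, if v φ = 1 then φ (Z.π i) else 1) ^ (2 * s) =
      ((p : ℂ) ^ Z.a) ^ (s * (Finset.univ.filter fun φ => v φ = 1).card)

/-- The abelian variety `Y` is (over an algebraic closure) isogenous to a product of a supersingular
abelian variety and of powers of the factors of `Z`: for each factor of `Y`, the square of a power of
the Frobenius endomorphism is a power of `q` (it is supersingular), or an embedding of the CM fields
takes a power of the Frobenius endomorphism of a factor of `Z` to a power of its Frobenius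
endomorphism. -/
def IsProductOfPowers (Z Y : RedAV p ν) : Prop :=
  ∀ i : Y.X.I, (∃ s : ℕ, 0 < s ∧ (Y.π i) ^ (2 * s) = ((p : (Y.X.factor i).E) ^ Y.a) ^ s) ∨
    ∃ (k : Z.X.I) (ι : (Z.X.factor k).E →+* (Y.X.factor i).E) (s t : ℕ), 0 < s ∧ 0 < t ∧
      Y.a * s = Z.a * t ∧ (Y.π i) ^ s = ι ((Z.π k) ^ t)

end Pool.Agent.V7H82.HS
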