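import Pool.Agent.N202.QR.Final
import Pool.Agent.V7H82.HT.Fin
import Pool.Agent.V7H82.HT.Stm

/-!
# The standard conjecture of Hodge type for independent good factors
-/

set_option autoImplicit false

namespace Pool.Agent.V7H82.HS

open NumberField Module MulAction
open Pool.Agent.W495.TA Pool.Agent.TH117.PO Pool.Agent.TH117.BL Pool.Agent.N202.QR

variable {p : ℕ} [Fact p.Prime] {ν : PadicAlgCl p ≃+* ℂ}

attribute [local instance] Pool.Agent.V7H82.HT.embAct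

theorem goodOrbit_of {Z : RedAV p ν} (w : Emb Z) (h : IsGoodField (Z.X.factor w.1).E) :
    Pool.Agent.V7H82.TT.GoodOrbit (ℂ ≃+* ℂ) conjE w := by
  classical
  obtain ⟨i, φ₀⟩ := w
  have horb : orbit (ℂ ≃+* ℂ) (⟨i, φ₀⟩ : Emb Z) =
      Set.range (fun φ : (Z.X.factor i).E →+* ℂ => (⟨i, φ⟩ : Emb Z)) := by
    ext ⟨k, ψ⟩
    rw [Pool.Agent.V7H82.HT.mem_orbit_emb]
    constructor
    · intro h1
      obtain rfl : k = i := h1
      exact ⟨ψ, rfl⟩
    · rintro ⟨φ, hφ⟩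
      rw [← hφ]
  have hinj : Function.Injective (fun φ : (Z.X.factor i).E →+* ℂ => (⟨i, φ⟩ : Emb Z)) := by
    intro φ ψ h1
    exact eq_of_heq (Sigma.mk.inj_iff.1 h1).2
  have hact : ∀ (σ : ℂ ≃+* ℂ) (φ : (Z.X.factor i).E →+* ℂ),
      σ • (⟨i, φ⟩ : Emb Z) = ⟨i, move σ φ⟩ := fun _ _ => rfl
  have hcj : ∀ φ : (Z.X.factor i).E →+* ℂ,
      conjE (⟨i, φ⟩ : Emb Z) = ⟨i, ComplexEmbedding.conjugate φ⟩ := fun _ => rfl
  have hsp : ∀ φ ψ : (Z.X.factor i).E →+* ℂ, SamePair φ ψ →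
      (⟨i, ψ⟩ : Emb Z) = ⟨i, φ⟩ ∨ (⟨i, ψ⟩ : Emb Z) = conjE ⟨i, φ⟩ := by
    rintro φ ψ (h1 | h1)
    · exact Or.inl (by rw [h1])
    · exact Or.inr (by rw [h1, hcj])
  have hnp : ∀ φ ψ : (Z.X.factor i).E →+* ℂ, (⟨i, ψ⟩ : Emb Z) ≠ ⟨i, φ⟩ →
      (⟨i, ψ⟩ : Emb Z) ≠ conjE ⟨i, φ⟩ → ¬ SamePair φ ψ := by
    intro φ ψ h1 h2 h3
    rcases hsp φ ψ h3 with h4 | h4
    · exact h1 h4
    · exact h2 h4
  obtain ⟨n, hn, h⟩ := h
  refine ⟨n, ?_, ?_⟩
  · rw [horb, Set.ncard_range_of_injective hinj, Nat.card_eq_fintype_card, ← hn]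
    exact Embeddings.card (Z.X.factor i).E ℂ
  · rcases h with h | h | ⟨h, h'⟩ | ⟨h, h'⟩
    · exact Or.inl h
    · exact Or.inr (Or.inl h)
    · refine Or.inr (Or.inr (Or.inl ⟨?_, ?_⟩))
      · intro x y x' y' hx hy hx' hy' h1 h2 h3 h4
        rw [horb] at hx hy hx' hy'
        obtain ⟨x, rfl⟩ := hx
        obtain ⟨y, rfl⟩ := hy
        obtain ⟨x', rfl⟩ := hx'
        obtain ⟨y', rfl⟩ := hy'
        obtain ⟨σ, hσ⟩ := h x y x' y' (hnp _ _ h1 h2) (hnp _ _ h3 h4)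
        exact ⟨σ, hσ.imp (fun h => ⟨hsp _ _ h.1, hsp _ _ h.2⟩) (fun h => ⟨hsp _ _ h.1, hsp _ _ h.2⟩)⟩
      · rcases h' with h' | h' | h'
        · exact Or.inl h'
        · exact Or.inr (Or.inl h')
        · refine Or.inr (Or.inr fun x y hx hy h1 h2 => ?_)
          rw [horb] at hx hy
          choose x0 hx0 using hx
          choose y0 hy0 using hy
          obtain rfl : (fun k => (⟨i, x0 k⟩ : Emb Z)) = x := funext hx0
          obtain rfl : (fun k => (⟨i, y0 k⟩ : Emb Z)) = y := funext hy0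
          obtain ⟨σ, π, hσ⟩ := h' x0 y0 (fun k l hkl => hnp _ _ (h1 k l hkl).1 (h1 k l hkl).2)
            (fun k l hkl => hnp _ _ (h2 k l hkl).1 (h2 k l hkl).2)
          exact ⟨σ, π, fun k => hsp _ _ (hσ k)⟩
    · refine Or.inr (Or.inr (Or.inr ⟨?_, ?_⟩))
      · intro B hB hy hBc hblock
        rw [horb] at hB ⊢
        rcases h {φ | (⟨i, φ⟩ : Emb Z) ∈ B} φ₀ hy (fun ψ hψ => hBc _ hψ)
          (fun σ hσ ψ hψ => hblock σ (by
            obtain ⟨χ, hχ, hχ'⟩ := hσ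
            exact ⟨_, hχ, hχ'⟩) _ hψ) with h1 | h1
        · left
          intro x hx
          obtain ⟨ψ, rfl⟩ := hB hx
          exact hsp _ _ (h1 ψ hx)
        · right
          refine Set.Subset.antisymm hB ?_
          rintro _ ⟨ψ, rfl⟩
          have : ψ ∈ {φ | (⟨i, φ⟩ : Emb Z) ∈ B} := by rw [h1]; trivial
          exact this
      · obtain ⟨σ, h1, ⟨φ, hφ⟩, ψ, hψ⟩ := h'
        refine ⟨σ, fun x hx => ?_, ⟨⟨i, φ⟩, ?_, ?_⟩, ⟨i, ψ⟩, ?_, ?_⟩
        · rw [horb] at hx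
          obtain ⟨χ, rfl⟩ := hx
          exact hsp _ _ (h1 χ)
        · rw [horb]; exact ⟨φ, rfl⟩
        · rw [hact, hφ]
        · rw [horb]; exact ⟨ψ, rfl⟩
        · rw [hact]
          exact fun h2 => hψ (hinj h2)

/-- **The standard conjecture of Hodge type** for the products of powers of independent factors with
good CM fields and of a supersingular abelian variety, if at most one of the factors of dimension
greater than five is of Weil type. -/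
theorem main {Ω : Nat.Primes → Type}
    [∀ l, Field (Ω l)] [∀ l, CharZero (Ω l)] [∀ l : Nat.Primes, Algebra ℚ_[(l : ℕ)] (Ω l)]
    [∀ l, IsAlgClosed (Ω l)] {C : (Y : RedAV p ν) → (κ : Type) → FCl Ω Y κ → Prop}
    (hC : IsCompatible Ω C) (l : Nat.Primes) (hR : IsRosatiPositive (Ω l) (atPrime C l))
    (hT : AreTate (Ω l) (atPrime C l)) (Z Y : RedAV p ν) (hYZ : IsProductOfPowers Z Y)
    (hgood : ∀ i : Z.X.I, IsGoodField (Z.X.factor i).E) (hind : AreIndependent Z)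
    (hweil : ∀ i k : Z.X.I, i ≠ k → 10 < finrank ℚ (Z.X.factor i).E →
      10 < finrank ℚ (Z.X.factor k).E → ¬ (IsWeilType Z i ∧ IsWeilType Z k)) :
    HodgeType (Ω l) (atPrime C l) Y := by
  classical
  have hwt : ∀ (w : Emb Z) (v : Emb Z → ℤ),
      Pool.Agent.V7H82.TT.OrbSign (ℂ ≃+* ℂ) conjE w v →
      IsRel Z (Pool.Agent.V7H82.HT.wexp Z w.1 v) → IsWeilType Z w.1 := by
    rintro ⟨i, φ₀⟩ v hv hrel
    have horb : ∀ φ : (Z.X.factor i).E →+* ℂ,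
        (⟨i, φ⟩ : Emb Z) ∈ orbit (ℂ ≃+* ℂ) (⟨i, φ₀⟩ : Emb Z) := fun φ =>
      Pool.Agent.V7H82.HT.mem_orbit_emb.2 rfl
    obtain ⟨s, hs, h1⟩ := hrel
    refine ⟨fun φ => v ⟨i, φ⟩, ⟨fun φ => hv.1 _ (horb φ), fun φ => hv.2.1 _ (horb φ),
      fun σ φ ψ => hv.2.2 σ _ (horb φ) _ (horb ψ)⟩, s, hs, ?_⟩
    have e1 : ∏ w, eig Z w ^ Pool.Agent.V7H82.HT.wexp Z i v w =
        ∏ φ : (Z.X.factor i).E →+* ℂ, if v ⟨i, φ⟩ = 1 then φ (Z.π i) else 1 := by
      rw [Fintype.prod_sigma, Finset.prod_eq_single i]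
      · refine Finset.prod_congr rfl fun φ _ => ?_
        unfold Pool.Agent.V7H82.HT.wexp eig
        by_cases h : v ⟨i, φ⟩ = 1
        · rw [if_pos ⟨rfl, h⟩, if_pos h, pow_one]
        · rw [if_neg (fun h' => h h'.2), if_neg h, pow_zero]
      · intro k _ hk
        refine Finset.prod_eq_one fun φ _ => ?_
        unfold Pool.Agent.V7H82.HT.wexp
        rw [if_neg (fun h' => hk h'.1), pow_zero]
      · intro h
        exact absurd (Finset.mem_univ _) h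
    have e2 : ∑ w, Pool.Agent.V7H82.HT.wexp Z i v w =
        (Finset.univ.filter fun φ : (Z.X.factor i).E →+* ℂ => v ⟨i, φ⟩ = 1).card := by
      rw [Fintype.sum_sigma, Finset.sum_eq_single i, Finset.card_filter]
      · refine Finset.sum_congr rfl fun φ _ => ?_
        unfold Pool.Agent.V7H82.HT.wexp
        by_cases h : v ⟨i, φ⟩ = 1
        · rw [if_pos ⟨rfl, h⟩, if_pos h]
        · rw [if_neg (fun h' => h h'.2), if_neg h]
      · intro k _ hk
        refine Finset.sum_eq_zero fun φ _ => ?_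
        unfold Pool.Agent.V7H82.HT.wexp
        rw [if_neg (fun h' => hk h'.1)]
      · intro h
        exact absurd (Finset.mem_univ _) h
    rw [← e1, ← e2]
    exact h1
  obtain ⟨K, _, _, _, hK, κ, hκ⟩ := Pool.Agent.V7H82.HT.quad_of_good (Z := Z)
    (fun w => goodOrbit_of w (hgood w.1))
    (by
      rintro ⟨i, φ⟩ ⟨k, ψ⟩ hik
      obtain ⟨σ, hσ⟩ := hind i k (Ne.symm hik) φ ψ
      refine ⟨σ, hσ.imp (fun h => ⟨?_, ?_⟩) (fun h => ⟨?_, ?_⟩)⟩
      · exact congrArg (Sigma.mk i) h.1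
      · exact congrArg (Sigma.mk k) h.2
      · exact congrArg (Sigma.mk i) h.1
      · exact congrArg (Sigma.mk k) h.2)
    (fun w w' h1 h2 h3 v v' hv hv' hr hr' =>
      hweil w.1 w'.1 (Ne.symm h1) h2 h3 ⟨hwt w v hv hr, hwt w' v' hv' hr'⟩)
  exact hodge_quadE hC l hR hT hK κ hκ hYZ

end Pool.Agent.V7H82.HS
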